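import Pool.Agent.Lib.SL.SpecE

/-!
MP_00e23e_nt, project NL (all classes, no lock; note 5005), chapter A', Type I2 (helper54): products of two smooth variables
in boxes, uniformly in all reduced classes modulo a squarefree q. Final statements: I2kStmt (for Ek) and I2Stmt (t = 1).
Files SLN/I2a.lean, .., theorems tI2a, .. in namespace Pool.Agent.Lib.SLN.
-/

namespace Pool.Agent.Lib.SLN

open Finset Pool.Agent.Lib.EH3 Pool.Agent.Lib.TB Pool.Agent.Results.MP_00e23e_nt Pool.Agent.Lib.MI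

/-- Module I2a (theorem tI2a; incomplete Kloosterman sums). Uses: SL.EcmStmt, SL.EkhStmt, SL.ErmStmt, SL.EzgStmt.
Proof. Ecm (N = N2 - N1). j = 0: N/q times Ramanujan's sum (n ↦ iv n q is a bijection of the reduced residues): ≤ (N/q) τ(q) gcd(c,q). j ≠ 0: weight ≤ 1/(2|j|), Ekh with m = 1, m' = q:
T √q √gcd(j,q) ≤ T √q gcd(j,q); T1Gsj with Z = J = q: the sum over j ≠ 0 is ≤ T √q T (1 + log q) ≤ T³ √q. -/
def I2aStmt : Prop := ∀ (X T : ℝ) (q N1 N2 : ℕ) (c : ℤ), Tau X T → Squarefree q → (q : ℝ) ≤ X → N1 ≤ N2 →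
  ‖∑ n ∈ Ioc N1 N2, t1g c q n‖ ≤ T * (((N2 : ℝ) - N1) / q * (Int.gcd c q : ℝ)) + T ^ 3 * Real.sqrt q

/-- Module I2b (theorem tI2b; completing the second variable). Uses: SL.EcmStmt, I2aStmt, SL.EzgStmt.
Proof. H l = ∑_k (dl b q (k l) - [k ⊥ q]/q) has the period q; for an integer j: hE H q j = ∑_{k ⊥ q} (en (j b iv k q) q - [q ∣ j]) (l ≡ b iv k q is the only solution), that is 0 if q ∣ j and ∑_k t1g (j b) q k otherwise. Ecm and I2a (gcd(j b, q) = gcd(j, q)): the sum over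
j ≠ 0 of 1/(2|j|) (T (K2-K1)/q gcd(j,q) + T³ √q) is ≤ T³ (K2-K1)/q + T⁵ √q. -/
def I2bStmt : Prop := ∀ (X T : ℝ) (q K1 K2 L1 L2 : ℕ) (b : ℤ), Tau X T → Squarefree q → (q : ℝ) ≤ X →
  Int.gcd b q = 1 → K1 ≤ K2 → L1 ≤ L2 →
  ‖∑ k ∈ Ioc K1 K2, ∑ l ∈ Ioc L1 L2, (dl b q (k * l) - (if k.Coprime q then 1 / (q : ℂ) else 0))‖ ≤
    T ^ 5 * (Real.sqrt q + ((K2 : ℝ) - K1) / q)

/-- Module I2c (theorem tI2c; reduced numbers in an interval). Uses: nothing.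
Proof. The number of l in (L1, L2] coprime to q is ∑_{d ∣ q} μ(d) (number of multiples of d) = (φ(q)/q)(L2 - L1) + O(τ(q)); q/φ(q) ≤ τ(q) for squarefree q (q/φ(q) = ∏ (1 + 1/(p-1)) ≤ 2^ω). -/
def I2cStmt : Prop := ∀ (X T : ℝ) (q L1 L2 : ℕ), Tau X T → Squarefree q → (q : ℝ) ≤ X → L1 ≤ L2 →
  |((L2 : ℝ) - L1) / q - (((Ioc L1 L2).filter (fun l => l.Coprime q)).card : ℝ) / (q.totient : ℝ)| ≤ 2 * T ^ 2 / q

/-- Module I2 (theorem tI2). Boxes, t = 1. Uses: I2bStmt, I2cStmt.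
Proof. Ek b 1 q n = dl b q n - [n ⊥ q]/φ(q). The difference to I2b is ∑_{k ⊥ q} ((L2-L1)/q - #{l ⊥ q}/φ(q)) = O((K2-K1) T²/q). -/
def I2Stmt : Prop := ∀ (X T : ℝ) (q K1 K2 L1 L2 : ℕ) (b : ℤ), Tau X T → Squarefree q → (q : ℝ) ≤ X →
  Int.gcd b q = 1 → K1 ≤ K2 → L1 ≤ L2 →
  ‖∑ k ∈ Ioc K1 K2, ∑ l ∈ Ioc L1 L2, Ek b 1 q (k * l)‖ ≤ 3 * T ^ 5 * (Real.sqrt q + ((K2 : ℝ) - K1) / q)

/-- Module I2k (theorem tI2k). FINAL STATEMENT: boxes, Ek a t q (m k l), every m. Uses: I2Stmt.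
Proof. If m is not coprime to q everything is 0 (Ek a t q n ≠ 0 implies n ⊥ q). Otherwise Ek a t q (m n) = Ek (a iv m q) t q n. With B = {b < q : b ⊥ q, b ≡ a mod t} (φ(q/t) elements): Ek a t q n = Ek a 1 q n - (1/φ(q/t)) ∑_{b ∈ B} Ek b 1 q n for all n. -/
def I2kStmt : Prop := ∀ (X T : ℝ) (t q m K1 K2 L1 L2 : ℕ) (a : ℤ), Tau X T → Squarefree q → (q : ℝ) ≤ X → t ∣ q →
  Int.gcd a q = 1 → K1 ≤ K2 → L1 ≤ L2 →
  ‖∑ k ∈ Ioc K1 K2, ∑ l ∈ Ioc L1 L2, Ek a t q (m * (k * l))‖ ≤ 6 * T ^ 5 * (Real.sqrt q + ((K2 : ℝ) - K1) / q)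

end Pool.Agent.Lib.SLN
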