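import Pool.Agent.Lib.SLN.DefN

/-!
MP_00e23e_nt, project NLM (all classes, no lock, moduli with an ARBITRARY divisor m ≤ x^μ, μ < 1/5), helper83: the pair bound.
m ∣ ρ is arbitrary; only the primes of ρ/m and of q s1 s2 are ≤ y. The trivial bound is PbTStmt (SLN/DefN.lean).
-/

namespace Pool.Agent.Lib.SLN

open Finset Pool.Agent.Lib.EH3 Pool.Agent.Lib.TB Pool.Agent.Results.MP_00e23e_nt Pool.Agent.Lib.MI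

/-- PAIR BOUND for far pairs, m ∣ ρ arbitrary. Theorem NM.tPbM. -/
def PbMStmt : Prop := ∀ k : ℕ, ∃ C : ℝ, 1 ≤ C ∧ ∃ A : ℕ, ∀ (X T W W0 Z y Δ : ℝ) (a : ℕ → ℕ → ℤ)
    (g R S N H R0 t0 m P1 ρ q q' s1 s2 s1' s2' : ℕ) (h h' : ℤ), Tau X T →
  (1 ≤ g ∧ 2 ≤ R ∧ 1 ≤ S ∧ 1 ≤ N ∧ 1 ≤ H ∧ 1 ≤ R0 ∧ R0 ≤ R ∧ R ≤ N) → 1 ≤ t0 → m ∣ ρ → 3 * m ≤ R →
  (2 * (R : ℝ) * (S : ℝ) ^ 2 * N * H) ^ 12 ≤ X → 1 ≤ Z → 1 ≤ y → 0 < Δ → 1 ≤ Z * Δ ^ (2 ^ (k + 1)) →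
  SuP y R S R0 P1 ρ q s1 s2 → SuP y R S R0 P1 ρ q' s1' s2' → (∀ p : ℕ, p.Prime → p ∣ ρ / m → (p : ℝ) ≤ y) →
  (h ≠ 0 ∧ |h| ≤ (H : ℤ)) → (h' ≠ 0 ∧ |h'| ≤ (H : ℤ)) → W0 ≤ (Wn (An g q s1 s2) (An g q' s1' s2') : ℝ) →
  4 * W ^ 2 * (R : ℝ) ^ 2 * g * m ≤ R0 * (N : ℝ) ^ 2 → C * (W ^ 2 * Z ^ 2 * (g : ℝ) ^ 2 * (H : ℝ) ^ 4) ≤ W0 →
  C * (Z * y) ^ 2 ≤ W → 64 * (R : ℝ) ^ 2 * (S : ℝ) ^ 4 ≤ (R0 : ℝ) * (W / (C * (Z * y))) ^ k →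
  ‖PS a g N t0 h (ρ * q) s1 s2 h' (ρ * q') s1' s2'‖ ≤
    C * T ^ A * ((N : ℝ) ^ 2 * R0 / (g * (R : ℝ) ^ 2) * (Δ + 1 / t0 + 1 / W) + t0) * (Nat.gcd q q' : ℝ)

end Pool.Agent.Lib.SLN
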