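import Pool.Agent.Lib.SL.Pha

/-!
MP_00e23e_nt, project NL (all classes, no lock): the phase identity for a pair of tuples p = (h, r, s1, s2), p' = (h', r', s1', s2')
with r = ρ q, r' = ρ q' and the same g = gcd(s1, s2) = gcd(s1', s2'). No condition on the classes. A prime that divides exactly
one of the two moduli A = q (s1/g) (s2/g), A' = q' (s1'/g) (s2'/g) does not divide the numerator (c1 for the primes of q, s1, c2 for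
the primes of s2) unless it divides h h'.
-/

set_option autoImplicit false

namespace Pool.Agent.Lib.SLN

open Finset Pool.Agent.Lib.EH3 Pool.Agent.Lib.TB Pool.Agent.Results.MP_00e23e_nt Pool.Agent.Lib.MI
open Pool.Agent.Lib.SL

/-- The phase identity of a pair, without lock. -/
def PhNStmt : Prop := ∀ (a : ℕ → ℕ → ℤ) (g ρ q q' s1 s2 s1' s2' : ℕ) (h h' : ℤ),
  (∀ n1 n2 : ℕ, Fp a g h (ρ * q) s1 s2 n1 n2 * (starRingEnd ℂ) (Fp a g h' (ρ * q') s1' s2' n1 n2) = 0) ∨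
  ∃ (B w1 w2 : ℕ) (l c1 c2 : ℤ), B = ρ * (g * Nat.lcm q q') ∧
    B * w1 = Nat.lcm (ρ * q * s1) (ρ * q' * s1') ∧ B * w2 = Nat.lcm (ρ * q * s2) (ρ * q' * s2') ∧
    Squarefree (B * w1) ∧ Squarefree (B * w2) ∧ Int.gcd l B = 1 ∧ 1 ≤ w1 ∧ 1 ≤ w2 ∧
    w1 ∣ Nat.lcm (s1 / g) (s1' / g) ∧ w2 ∣ Nat.lcm (s2 / g) (s2' / g) ∧
    (1 ≤ g ∧ g ∣ s1 ∧ g ∣ s2 ∧ g ∣ s1' ∧ g ∣ s2' ∧ Squarefree (ρ * q * s1) ∧ Squarefree (ρ * q' * s1') ∧
      (s2 / g).Coprime (ρ * q * s1) ∧ (s2' / g).Coprime (ρ * q' * s1')) ∧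
    (∀ p : ℕ, p.Prime → (p : ℤ) ∣ c1 → p ∣ q * (s1 / g) → ¬ p ∣ q' * (s1' / g * (s2' / g)) → (p : ℤ) ∣ h) ∧
    (∀ p : ℕ, p.Prime → (p : ℤ) ∣ c1 → p ∣ q' * (s1' / g) → ¬ p ∣ q * (s1 / g * (s2 / g)) → (p : ℤ) ∣ h') ∧
    (∀ p : ℕ, p.Prime → (p : ℤ) ∣ c2 → p ∣ s2 / g → ¬ p ∣ q' * (s1' / g * (s2' / g)) → (p : ℤ) ∣ h) ∧
    (∀ p : ℕ, p.Prime → (p : ℤ) ∣ c2 → p ∣ s2' / g → ¬ p ∣ q * (s1 / g * (s2 / g)) → (p : ℤ) ∣ h') ∧
    ∀ n1 n2 : ℕ, Fp a g h (ρ * q) s1 s2 n1 n2 * (starRingEnd ℂ) (Fp a g h' (ρ * q') s1' s2' n1 n2) =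
      if (B : ℤ) ∣ (n1 : ℤ) - l * n2 then t1g c1 (B * w1) n1 * t1g c2 w2 n2 else 0

/-- coprime numbers have no common prime -/
private lemma PhN_one {p x y : ℕ} (hp : p.Prime) (hc : x.Coprime y) (hx : p ∣ x) : ¬ p ∣ y := by
  intro hy
  have h5 := Nat.dvd_gcd hx hy
  rw [hc] at h5
  exact hp.one_lt.ne' (Nat.dvd_one.1 h5)

private lemma PhN_div {p G Q : ℕ} (hp : p.Prime) (hQ : p ∣ Q) (hGQ : G ∣ Q) (hG : ¬ p ∣ G) :
    (p : ℤ) ∣ ((Q / G : ℕ) : ℤ) := by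
  have e : G * (Q / G) = Q := Nat.mul_div_cancel' hGQ
  rw [← e] at hQ
  exact Int.natCast_dvd_natCast.2 (((Nat.Prime.dvd_mul hp).1 hQ).resolve_left hG)

private lemma PhN_iv {p G m : ℕ} (hp : p.Prime) (hc : G.Coprime m) (hm : 1 ≤ m) (pm : p ∣ m) :
    ¬ (p : ℤ) ∣ (iv G m : ℤ) := by
  intro hh
  have hpZ : Prime (p : ℤ) := Nat.prime_iff_prime_int.1 hp
  have h1 : (p : ℤ) ∣ (iv G m : ℤ) * G - 1 := (Int.natCast_dvd_natCast.2 pm).trans (iv_dvd hc hm)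
  have h2 : (p : ℤ) ∣ 1 := by
    have h3 := dvd_sub (dvd_mul_of_dvd_left hh (G : ℤ)) h1
    rwa [sub_sub_cancel] at h3
  exact hpZ.not_isUnit (isUnit_of_dvd_one h2)

private lemma PhN_gcd {p m : ℕ} {A : ℤ} (hp : p.Prime) (hA : Int.gcd A (m : ℤ) = 1) (pm : p ∣ m) :
    ¬ (p : ℤ) ∣ A := by
  intro hh
  have h1 : (p : ℤ) ∣ ((Int.gcd A (m : ℤ) : ℕ) : ℤ) := Int.dvd_coe_gcd hh (Int.natCast_dvd_natCast.2 pm)
  rw [hA] at h1
  exact hp.one_lt.ne' (Nat.dvd_one.1 (Int.natCast_dvd_natCast.1 h1))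

private lemma PhN_sqd {p m Q : ℕ} (hp : p.Prime) (hQ : Squarefree Q) (hm : m ∣ Q) (pm : p ∣ m) :
    ¬ (p : ℤ) ∣ ((Q / m : ℕ) : ℤ) := by
  intro hh
  have e : m * (Q / m) = Q := Nat.mul_div_cancel' hm
  have h1 := Int.natCast_dvd_natCast.1 hh
  have h2 := (Nat.squarefree_mul_iff.1 (e.symm ▸ hQ : Squarefree (m * (Q / m)))).1
  exact PhN_one hp h2 pm h1

/-- a prime p of q G1 does not divide the other modulus -/
private lemma PhN_m' {p g ρ q q' G1 G1' G2' : ℕ} (hp : p.Prime) (sq1 : Squarefree (ρ * q * (g * G1)))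
    (pq : p ∣ q * G1) (pn : ¬ p ∣ q' * (G1' * G2')) : ¬ p ∣ ρ * q' * (g * G1') := by
  have e : ρ * q * (g * G1) = (ρ * g) * (q * G1) := by ring
  rw [e] at sq1
  have h1 : ¬ p ∣ ρ * g := PhN_one hp (Nat.squarefree_mul_iff.1 sq1).1.symm pq
  intro hh
  have e2 : ρ * q' * (g * G1') = (ρ * g) * (q' * G1') := by ring
  rw [e2] at hh
  rcases (Nat.Prime.dvd_mul hp).1 hh with h2 | h2
  · exact h1 h2
  · exact pn (h2.trans ⟨G2', by ring⟩)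

/-- the coefficient c1 modulo a prime p ∣ q G1 -/
private lemma PhN_c1 {A1 A1' A2 A2' h h' l C1 C2 : ℤ} {g ρ q q' G1 G1' G2 G2' Q1 Q2 B w1 w2 p : ℕ} (hp : p.Prime)
    (sq1 : Squarefree (ρ * q * (g * G1))) (cc : G2.Coprime (ρ * q * (g * G1)))
    (d1 : ρ * q * (g * G1) ∣ Q1) (d1' : ρ * q' * (g * G1') ∣ Q1) (d2 : ρ * q * (g * G2) ∣ Q2)
    (d2' : ρ * q' * (g * G2') ∣ Q2) (s1q : Squarefree Q1) (hw1 : Q1 = B * w1) (hw2 : Q2 = B * w2)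
    (hA1 : Int.gcd A1 ((ρ * q * (g * G1) : ℕ) : ℤ) = 1)
    (hC1 : C1 = phK1 A1 h (ρ * q * (g * G1)) G2 * ((Q1 / (ρ * q * (g * G1)) : ℕ) : ℤ) -
      phK1 A1' h' (ρ * q' * (g * G1')) G2' * ((Q1 / (ρ * q' * (g * G1')) : ℕ) : ℤ))
    (hC2 : C2 = phK2 A2 h (ρ * q * (g * G1)) G2 * ((Q2 / G2 : ℕ) : ℤ) -
      phK2 A2' h' (ρ * q' * (g * G1')) G2' * ((Q2 / G2' : ℕ) : ℤ))
    (pq : p ∣ q * G1) (pn : ¬ p ∣ q' * (G1' * G2'))
    (pc : (p : ℤ) ∣ C1 + l * C2 * (iv w2 B : ℤ) * w1) : (p : ℤ) ∣ h := by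
  have hpZ : Prime (p : ℤ) := Nat.prime_iff_prime_int.1 hp
  have pm' := PhN_m' hp sq1 pq pn
  have pG2' : ¬ p ∣ G2' := fun hh => pn (hh.trans ⟨q' * G1', by ring⟩)
  have pm : p ∣ ρ * q * (g * G1) := pq.trans ⟨ρ * g, by ring⟩
  set m := ρ * q * (g * G1) with hm
  set m' := ρ * q' * (g * G1') with hm'
  have hm1 : 1 ≤ m := Nat.pos_of_ne_zero sq1.ne_zero
  have pG2 : ¬ p ∣ G2 := PhN_one hp cc.symm pm
  have pQ1 : p ∣ Q1 := pm.trans d1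
  have t1 : (p : ℤ) ∣ ((Q1 / m' : ℕ) : ℤ) := PhN_div hp pQ1 d1' pm'
  have hd : G2' ∣ Q2 := Dvd.dvd.trans ⟨ρ * q' * g, by ring⟩ d2'
  have hd2 : G2 ∣ Q2 := Dvd.dvd.trans ⟨ρ * q * g, by ring⟩ d2
  have c1 : (p : ℤ) ∣ C1 := by
    have h1 : (p : ℤ) ∣ l * C2 * (iv w2 B : ℤ) * w1 := by
      by_cases hpB : p ∣ B
      · have pQ2 : p ∣ Q2 := by
          rw [hw2]
          exact dvd_mul_of_dvd_left hpB _
        have c2 : (p : ℤ) ∣ C2 := by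
          rw [hC2]
          exact dvd_sub (dvd_mul_of_dvd_right (PhN_div hp pQ2 hd2 pG2) _)
            (dvd_mul_of_dvd_right (PhN_div hp pQ2 hd pG2') _)
        exact dvd_mul_of_dvd_left (dvd_mul_of_dvd_left (dvd_mul_of_dvd_right c2 _) _) _
      · have hpw : p ∣ w1 := by
          rw [hw1] at pQ1
          exact ((Nat.Prime.dvd_mul hp).1 pQ1).resolve_left hpB
        exact dvd_mul_of_dvd_right (Int.natCast_dvd_natCast.2 hpw) _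
    have h2 := dvd_sub pc h1
    rwa [add_sub_cancel_right] at h2
  have c3 : (p : ℤ) ∣ phK1 A1 h m G2 * ((Q1 / m : ℕ) : ℤ) := by
    rw [hC1] at c1
    have h2 := dvd_add c1 (dvd_mul_of_dvd_right t1 (phK1 A1' h' m' G2'))
    rwa [sub_add_cancel] at h2
  rcases hpZ.dvd_or_dvd c3 with h4 | h4
  · unfold phK1 at h4
    rcases hpZ.dvd_or_dvd h4 with h5 | h5
    · rw [dvd_neg] at h5
      exact (hpZ.dvd_or_dvd h5).resolve_right (PhN_gcd hp hA1 pm)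
    · exact absurd h5 (PhN_iv hp cc hm1 pm)
  · exact absurd h4 (PhN_sqd hp s1q d1 pm)

/-- the coefficient c2 modulo a prime p ∣ G2 -/
private lemma PhN_c2 {A2 A2' h h' C2 : ℤ} {g ρ q q' G1 G1' G2 G2' Q2 B w2 p : ℕ} (hp : p.Prime)
    (sq2 : Squarefree (ρ * q * (g * G2))) (cc : G2.Coprime (ρ * q * (g * G1))) (pm1 : 1 ≤ G2)
    (d2 : ρ * q * (g * G2) ∣ Q2) (d2' : ρ * q' * (g * G2') ∣ Q2) (s2q : Squarefree Q2)
    (hBe : B = ρ * (g * Nat.lcm q q')) (hw2 : Q2 = B * w2)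
    (hA2 : Int.gcd A2 ((ρ * q * (g * G2) : ℕ) : ℤ) = 1)
    (hC2 : C2 = phK2 A2 h (ρ * q * (g * G1)) G2 * ((Q2 / G2 : ℕ) : ℤ) -
      phK2 A2' h' (ρ * q' * (g * G1')) G2' * ((Q2 / G2' : ℕ) : ℤ))
    (pq : p ∣ G2) (pn : ¬ p ∣ q' * (G1' * G2'))
    (pc : (p : ℤ) ∣ C2 * (iv B w2 : ℤ)) : (p : ℤ) ∣ h := by
  have hpZ : Prime (p : ℤ) := Nat.prime_iff_prime_int.1 hp
  have pG2' : ¬ p ∣ G2' := fun hh => pn (hh.trans ⟨q' * G1', by ring⟩)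
  have pq' : ¬ p ∣ q' := fun hh => pn (hh.trans (dvd_mul_right _ _))
  have e : ρ * q * (g * G2) = (ρ * q * g) * G2 := by ring
  have h0 : ¬ p ∣ ρ * q * g := PhN_one hp (Nat.squarefree_mul_iff.1 (e ▸ sq2)).1.symm pq
  have pB : ¬ p ∣ B := by
    rw [hBe]
    intro hh
    rcases (Nat.Prime.dvd_mul hp).1 hh with h1 | h1
    · exact h0 (h1.trans ⟨q * g, by ring⟩)
    · rcases (Nat.Prime.dvd_mul hp).1 h1 with h2 | h2
      · exact h0 (h2.trans (dvd_mul_left _ _))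
      · have h3 : p ∣ q * q' := h2.trans (pha_lcm_mul q q')
        rcases (Nat.Prime.dvd_mul hp).1 h3 with h4 | h4
        · exact h0 (h4.trans ⟨ρ * g, by ring⟩)
        · exact pq' h4
  have hd : G2' ∣ Q2 := Dvd.dvd.trans ⟨ρ * q' * g, by ring⟩ d2'
  have hd2 : G2 ∣ Q2 := Dvd.dvd.trans ⟨ρ * q * g, by ring⟩ d2
  have pQ2 : p ∣ Q2 := pq.trans hd2
  have pw2 : p ∣ w2 := by
    have h1 := pQ2
    rw [hw2] at h1
    exact ((Nat.Prime.dvd_mul hp).1 h1).resolve_left pB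
  have sB2 : Squarefree (B * w2) := hw2 ▸ s2q
  have hc := (Nat.squarefree_mul_iff.1 sB2).1
  have hw0 : 1 ≤ w2 := Nat.pos_of_ne_zero (Nat.squarefree_mul_iff.1 sB2).2.2.ne_zero
  have c2 : (p : ℤ) ∣ C2 := (hpZ.dvd_or_dvd pc).resolve_right (PhN_iv hp hc hw0 pw2)
  have c3 : (p : ℤ) ∣ phK2 A2 h (ρ * q * (g * G1)) G2 * ((Q2 / G2 : ℕ) : ℤ) := by
    rw [hC2] at c2
    have h2 := dvd_add c2 (dvd_mul_of_dvd_right (PhN_div hp pQ2 hd pG2') (phK2 A2' h' (ρ * q' * (g * G1')) G2'))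
    rwa [sub_add_cancel] at h2
  rcases hpZ.dvd_or_dvd c3 with h4 | h4
  · unfold phK2 at h4
    rcases hpZ.dvd_or_dvd h4 with h5 | h5
    · rw [dvd_neg] at h5
      exact (hpZ.dvd_or_dvd h5).resolve_right (PhN_gcd hp hA2 (pq.trans ⟨ρ * q * g, by ring⟩))
    · exact absurd h5 (PhN_iv hp cc.symm pm1 pq)
  · exact absurd h4 (PhN_sqd hp s2q hd2 pq)

private lemma PhN_core {a : ℕ → ℕ → ℤ} {h h' : ℤ} {g ρ q q' G1 G1' G2 G2' s1 s2 s1' s2' m1 m2 : ℕ}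
    (es1 : s1 = g * G1) (es1' : s1' = g * G1')
    (es2 : s2 = g * G2) (es2' : s2' = g * G2') (hG : Gg a g (ρ * q) s1 s2 m1 m2)
    (hG' : Gg a g (ρ * q') s1' s2' m1 m2) :
    ∃ (B w1 w2 : ℕ) (l c1 c2 : ℤ), B = ρ * (g * Nat.lcm q q') ∧
      B * w1 = Nat.lcm (ρ * q * s1) (ρ * q' * s1') ∧ B * w2 = Nat.lcm (ρ * q * s2) (ρ * q' * s2') ∧
      Squarefree (B * w1) ∧
      Squarefree (B * w2) ∧ Int.gcd l B = 1 ∧ 1 ≤ w1 ∧ 1 ≤ w2 ∧ w1 ∣ Nat.lcm G1 G1' ∧ w2 ∣ Nat.lcm G2 G2' ∧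
      (∀ p : ℕ, p.Prime → (p : ℤ) ∣ c1 → p ∣ q * G1 → ¬ p ∣ q' * (G1' * G2') → (p : ℤ) ∣ h) ∧
      (∀ p : ℕ, p.Prime → (p : ℤ) ∣ c1 → p ∣ q' * G1' → ¬ p ∣ q * (G1 * G2) → (p : ℤ) ∣ h') ∧
      (∀ p : ℕ, p.Prime → (p : ℤ) ∣ c2 → p ∣ G2 → ¬ p ∣ q' * (G1' * G2') → (p : ℤ) ∣ h) ∧
      (∀ p : ℕ, p.Prime → (p : ℤ) ∣ c2 → p ∣ G2' → ¬ p ∣ q * (G1 * G2) → (p : ℤ) ∣ h') ∧
      ∀ n1 n2 : ℕ, Fp a g h (ρ * q) s1 s2 n1 n2 * (starRingEnd ℂ) (Fp a g h' (ρ * q') s1' s2' n1 n2) =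
        if (B : ℤ) ∣ (n1 : ℤ) - l * n2 then t1g c1 (B * w1) n1 * t1g c2 w2 n2 else 0 := by
  subst es1 es1' es2 es2'
  have x := pha_cop2 hG
  have x' := pha_cop2 hG'
  have hg0 : 0 < g := x.2.2.2.1
  have eG : g * G2 / g = G2 := Nat.mul_div_cancel_left _ hg0
  have eG' : g * G2' / g = G2' := Nat.mul_div_cancel_left _ hg0
  have xc : G2.Coprime (ρ * q * (g * G1)) := by
    have := x.1
    rwa [eG] at this
  have xc' : G2'.Coprime (ρ * q' * (g * G1')) := by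
    have := x'.1
    rwa [eG'] at this
  have xp : 1 ≤ G2 := by
    have := x.2.2.1
    rwa [eG] at this
  have xp' : 1 ≤ G2' := by
    have := x'.2.2.1
    rwa [eG'] at this
  set Q1 := Nat.lcm (ρ * q * (g * G1)) (ρ * q' * (g * G1')) with hQ1
  set Q2 := Nat.lcm (ρ * q * (g * G2)) (ρ * q' * (g * G2')) with hQ2
  have s1q : Squarefree Q1 := pha_sq hG.1 hG'.1
  have s2q : Squarefree Q2 := pha_sq hG.2.1 hG'.2.1
  have d1 : ρ * q * (g * G1) ∣ Q1 := Nat.dvd_lcm_left _ _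
  have d1' : ρ * q' * (g * G1') ∣ Q1 := Nat.dvd_lcm_right _ _
  have d2 : ρ * q * (g * G2) ∣ Q2 := Nat.dvd_lcm_left _ _
  have d2' : ρ * q' * (g * G2') ∣ Q2 := Nat.dvd_lcm_right _ _
  set B := ρ * (g * Nat.lcm q q') with hBd
  have hBl : B = Nat.lcm (ρ * q * g) (ρ * q' * g) := by
    have e1 : ρ * q * g = ρ * g * q := by ring
    have e2 : ρ * q' * g = ρ * g * q' := by ring
    rw [e1, e2, Nat.lcm_mul_left, hBd]
    ring
  have hB1 : B ∣ Q1 := by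
    rw [hBl]
    exact Nat.lcm_dvd (Dvd.dvd.trans ⟨G1, by ring⟩ d1) (Dvd.dvd.trans ⟨G1', by ring⟩ d1')
  have hB2 : B ∣ Q2 := by
    rw [hBl]
    exact Nat.lcm_dvd (Dvd.dvd.trans ⟨G2, by ring⟩ d2) (Dvd.dvd.trans ⟨G2', by ring⟩ d2')
  obtain ⟨w1, hw1⟩ := hB1
  obtain ⟨w2, hw2⟩ := hB2
  have sB1 : Squarefree (B * w1) := hw1 ▸ s1q
  have sB2 : Squarefree (B * w2) := hw2 ▸ s2q
  have pB : 0 < B := Nat.pos_of_ne_zero (Nat.squarefree_mul_iff.1 sB1).2.1.ne_zero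
  have pw1 : 1 ≤ w1 := Nat.pos_of_ne_zero (Nat.squarefree_mul_iff.1 sB1).2.2.ne_zero
  have pw2 : 1 ≤ w2 := Nat.pos_of_ne_zero (Nat.squarefree_mul_iff.1 sB2).2.2.ne_zero
  -- coprimality of m1, m2
  have m1B : m1.Coprime B := by
    have h1 : m1.Coprime Q1 := pha_cop hG.2.2.2.1 hG'.2.2.2.1 (pha_lcm_mul _ _)
    exact Nat.Coprime.coprime_dvd_right ⟨w1, hw1⟩ h1
  have m2B : m2.Coprime B := by
    have h1 : m2.Coprime Q2 := pha_cop hG.2.2.2.2.1 hG'.2.2.2.2.1 (pha_lcm_mul _ _)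
    exact Nat.Coprime.coprime_dvd_right ⟨w2, hw2⟩ h1
  set l : ℤ := (m1 : ℤ) * (iv m2 B : ℤ) with hld
  have hl : (B : ℤ) ∣ l * m2 - m1 := by
    obtain ⟨t, ht⟩ := iv_dvd m2B pB
    refine ⟨m1 * t, ?_⟩
    rw [hld]
    linear_combination (m1 : ℤ) * ht
  have hlg : Int.gcd l B = 1 := by
    have h1 : Int.gcd (m1 : ℤ) (B : ℤ) = 1 := by
      rw [Int.gcd_natCast_natCast]
      exact m1B
    have h2 : Int.gcd (m2 : ℤ) (B : ℤ) = 1 := by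
      rw [Int.gcd_natCast_natCast]
      exact m2B
    rw [pha_gcd (y := (m1 : ℤ)) (u := (m2 : ℤ)) (w := 1) h2 (by simp) (by simpa using hl)]
    exact h1
  set C1 : ℤ := phK1 (a (ρ * q) (g * G1)) h (ρ * q * (g * G1)) G2 * ((Q1 / (ρ * q * (g * G1)) : ℕ) : ℤ) -
      phK1 (a (ρ * q') (g * G1')) h' (ρ * q' * (g * G1')) G2' * ((Q1 / (ρ * q' * (g * G1')) : ℕ) : ℤ) with hC1
  set C2 : ℤ := phK2 (a (ρ * q) (g * G2)) h (ρ * q * (g * G1)) G2 * ((Q2 / G2 : ℕ) : ℤ) -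
      phK2 (a (ρ * q') (g * G2')) h' (ρ * q' * (g * G1')) G2' * ((Q2 / G2' : ℕ) : ℤ) with hC2
  have hC1n : -C1 = phK1 (a (ρ * q') (g * G1')) h' (ρ * q' * (g * G1')) G2' *
      ((Q1 / (ρ * q' * (g * G1')) : ℕ) : ℤ) -
      phK1 (a (ρ * q) (g * G1)) h (ρ * q * (g * G1)) G2 * ((Q1 / (ρ * q * (g * G1)) : ℕ) : ℤ) := by
    rw [hC1]
    ring
  have hC2n : -C2 = phK2 (a (ρ * q') (g * G2')) h' (ρ * q' * (g * G1')) G2' * ((Q2 / G2' : ℕ) : ℤ) -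
      phK2 (a (ρ * q) (g * G2)) h (ρ * q * (g * G1)) G2 * ((Q2 / G2 : ℕ) : ℤ) := by
    rw [hC2]
    ring
  have hBd' : B = ρ * (g * Nat.lcm q' q) := by rw [hBd, Nat.lcm_comm]
  refine ⟨B, w1, w2, l, C1 + l * C2 * (iv w2 B : ℤ) * w1, C2 * (iv B w2 : ℤ), rfl,
    hw1.symm, hw2.symm, sB1, sB2, hlg, pw1, pw2, pha_w hw1.symm pB, pha_w hw2.symm pB, ?_, ?_, ?_, ?_, ?_⟩
  · intro p hp hpc pq pn
    exact PhN_c1 hp hG.1 xc d1 d1' d2 d2' s1q hw1 hw2 hG.2.2.2.2.2.1 hC1 hC2 pq pn hpc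
  · intro p hp hpc pq pn
    refine PhN_c1 (l := l) (w2 := w2) (B := B) (w1 := w1) hp hG'.1 xc' d1' d1 d2' d2 s1q hw1 hw2 hG'.2.2.2.2.2.1
      hC1n hC2n pq pn ?_
    have e : -C1 + l * -C2 * (iv w2 B : ℤ) * w1 = -(C1 + l * C2 * (iv w2 B : ℤ) * w1) := by ring
    rw [e]
    exact dvd_neg.2 hpc
  · intro p hp hpc pq pn
    exact PhN_c2 hp hG.2.1 xc xp d2 d2' s2q hBd hw2 hG.2.2.2.2.2.2.1 hC2 pq pn hpc
  · intro p hp hpc pq pn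
    refine PhN_c2 (B := B) (w2 := w2) hp hG'.2.1 xc' xp' d2' d2 s2q hBd' hw2 hG'.2.2.2.2.2.2.1 hC2n pq pn ?_
    have e : -C2 * (iv B w2 : ℤ) = -(C2 * (iv B w2 : ℤ)) := by ring
    rw [e]
    exact dvd_neg.2 hpc
  · intro n1 n2
    have hiff := pha_lat hG hG' hBl hl n1 n2
    rw [← hQ1, ← hQ2, hw1, hw2] at hiff
    by_cases hc : n1.Coprime (B * w1) ∧ n2.Coprime (B * w2) ∧ (B : ℤ) ∣ (n1 : ℤ) - l * n2
    · rw [if_pos hc.2.2]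
      obtain ⟨gg, gg'⟩ := hiff.2 hc
      unfold Fp t1g
      rw [if_pos gg, if_pos gg', if_pos hc.1,
        if_pos (Nat.Coprime.coprime_dvd_right (dvd_mul_left _ _) hc.2.1)]
      refine pha_two gg gg' d1 d1' d2 d2' hw1 hw2 s1q s2q ?_ ?_ hc.2.2 C1 C2 ?_ ?_
      · rw [hw1]
        exact hc.1
      · rw [hw2]
        exact hc.2.1
      · rw [eG, eG']
      · rw [eG, eG']
    · have h0 : Fp a g h (ρ * q) (g * G1) (g * G2) n1 n2 *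
          (starRingEnd ℂ) (Fp a g h' (ρ * q') (g * G1') (g * G2') n1 n2) = 0 := by
        unfold Fp
        by_cases gg : Gg a g (ρ * q) (g * G1) (g * G2) n1 n2
        · by_cases gg' : Gg a g (ρ * q') (g * G1') (g * G2') n1 n2
          · exact absurd (hiff.1 ⟨gg, gg'⟩) hc
          · rw [if_neg gg', map_zero, mul_zero]
        · rw [if_neg gg, zero_mul]
      rw [h0]
      by_cases h1 : (B : ℤ) ∣ (n1 : ℤ) - l * n2
      · rw [if_pos h1]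
        unfold t1g
        by_cases h2 : n1.Coprime (B * w1)
        · by_cases h3 : n2.Coprime w2
          · exfalso
            apply hc
            refine ⟨h2, ?_, h1⟩
            refine Nat.Coprime.mul_right ?_ h3
            have h4 : IsCoprime (n1 : ℤ) (B : ℤ) :=
              Nat.isCoprime_iff_coprime.2 (Nat.Coprime.coprime_dvd_right (dvd_mul_right _ _) h2)
            obtain ⟨t, ht⟩ := h1
            have h5 : IsCoprime (l * (n2 : ℤ)) (B : ℤ) := by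
              have e : l * (n2 : ℤ) = (n1 : ℤ) + (B : ℤ) * (-t) := by linarith
              rw [e]
              exact h4.add_mul_left_left (-t)
            exact Nat.isCoprime_iff_coprime.1 (IsCoprime.of_mul_left_right h5)
          · rw [if_neg h3, mul_zero]
        · rw [if_neg h2, zero_mul]
      · rw [if_neg h1]

theorem tPhN : PhNStmt := by
  intro a g ρ q q' s1 s2 s1' s2' h h'
  by_cases H : ∀ n1 n2 : ℕ, Fp a g h (ρ * q) s1 s2 n1 n2 *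
      (starRingEnd ℂ) (Fp a g h' (ρ * q') s1' s2' n1 n2) = 0
  · exact Or.inl H
  · right
    simp only [not_forall] at H
    obtain ⟨m1, m2, hne⟩ := H
    have hG : Gg a g (ρ * q) s1 s2 m1 m2 := by
      by_contra hc
      exact hne (by unfold Fp; rw [if_neg hc, zero_mul])
    have hG' : Gg a g (ρ * q') s1' s2' m1 m2 := by
      by_contra hc
      exact hne (by unfold Fp; rw [if_neg hc, map_zero, mul_zero])
    have x := pha_cop2 hG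
    have x' := pha_cop2 hG'
    have es1 : s1 = g * (s1 / g) := (Nat.mul_div_cancel' x.2.2.2.2.1).symm
    have es2 : s2 = g * (s2 / g) := (Nat.mul_div_cancel' x.2.2.2.2.2).symm
    have es1' : s1' = g * (s1' / g) := (Nat.mul_div_cancel' x'.2.2.2.2.1).symm
    have es2' : s2' = g * (s2' / g) := (Nat.mul_div_cancel' x'.2.2.2.2.2).symm
    obtain ⟨B, w1, w2, l, c1, c2, f1, f2, f3, f4, f5, f6, f7, f8, f9, f10, f11, f12, f13, f14, f15⟩ :=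
      PhN_core (h := h) (h' := h') es1 es1' es2 es2' hG hG'
    exact ⟨B, w1, w2, l, c1, c2, f1, f2, f3, f4, f5, f6, f7, f8, f9, f10,
      ⟨x.2.2.2.1, x.2.2.2.2.1, x.2.2.2.2.2, x'.2.2.2.2.1, x'.2.2.2.2.2, hG.1, hG'.1, x.1, x'.1⟩, f11, f12, f13, f14, f15⟩

end Pool.Agent.Lib.SLN
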