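import Pool.Agent.Lib.SLN.DefI2

/-!
MP_00e23e_nt, project NL, chapter A', Type I2, module I2a (helper54): incomplete Kloosterman sums.
-/

namespace Pool.Agent.Lib.SLN

open Finset Pool.Agent.Lib.EH3 Pool.Agent.Lib.TB Pool.Agent.Results.MP_00e23e_nt Pool.Agent.Lib.MI

/-- inverses are coprime to the modulus -/
private lemma I2a_cop {x q : ℕ} (hq : 1 ≤ q) (hx : x.Coprime q) : (iv x q).Coprime q := by
  have h := iv_dvd hx hq
  rw [← Nat.isCoprime_iff_coprime]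
  obtain ⟨z, hz⟩ := h
  exact ⟨(x : ℤ), -z, by linarith⟩

/-- the inverse of the inverse -/
private lemma I2a_inv {x q : ℕ} (hq : 1 ≤ q) (hx : x.Coprime q) (hxq : x < q) : iv (iv x q) q = x := by
  have h := iv_dvd hx hq
  have h1 : (q : ℤ) ∣ (x : ℤ) * (iv x q : ℤ) - 1 := by
    rw [mul_comm]
    exact h
  have h2 := iv_unique (I2a_cop hq hx) hq h1
  have h3 : iv (iv x q) q < q := iv_lt hq
  have h5 : (x : ℤ) % q = (iv (iv x q) q : ℤ) % q := (Int.modEq_iff_dvd.2 h2).symm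
  rw [Int.emod_eq_of_lt (by positivity) (by exact_mod_cast hxq),
    Int.emod_eq_of_lt (by positivity) (by exact_mod_cast h3)] at h5
  exact_mod_cast h5.symm

/-- the complete sum at the frequency 0 -/
private lemma I2a_zero (q : ℕ) (c : ℤ) (hq : 1 ≤ q) :
    SL.hE (t1g c q) q 0 = ∑ x ∈ (range q).filter (fun x => x.Coprime q), en (c * x) q := by
  unfold SL.hE
  have h1 : ∀ n ∈ range q, t1g c q n * en (0 * n) q = if n.Coprime q then en (c * (iv n q : ℤ)) q else 0 := by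
    intro n _
    rw [zero_mul, en_zero, mul_one]
    rfl
  rw [sum_congr rfl h1, ← sum_filter]
  refine sum_nbij' (fun x => iv x q) (fun x => iv x q) ?_ ?_ ?_ ?_ ?_
  · intro x hx
    rw [mem_filter, mem_range] at hx ⊢
    exact ⟨iv_lt hq, I2a_cop hq hx.2⟩
  · intro x hx
    rw [mem_filter, mem_range] at hx ⊢
    exact ⟨iv_lt hq, I2a_cop hq hx.2⟩
  · intro x hx
    rw [mem_filter, mem_range] at hx
    exact I2a_inv hq hx.2 hx.1
  · intro x hx
    rw [mem_filter, mem_range] at hx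
    exact I2a_inv hq hx.2 hx.1
  · intro x _
    rfl

theorem tI2a (hcm : SL.EcmStmt) (hkh : SL.EkhStmt) (hrm : SL.ErmStmt) (hzg : SL.EzgStmt) : I2aStmt := by
  intro X T q N1 N2 c hTau hsq hX h12
  have hq0 : q ≠ 0 := hsq.ne_zero
  have hq : 1 ≤ q := Nat.one_le_iff_ne_zero.2 hq0
  have hqR : (0 : ℝ) < q := by exact_mod_cast hq
  have hT1 : 1 ≤ T := hTau.1
  have hT0 : 0 ≤ T := by linarith
  have hτ : (q.divisors.card : ℝ) ≤ T := hTau.2.2 q hq hX
  have hN : N2 ≤ N1 + (N2 - N1) := by omega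
  have hNR : (((N2 - N1 : ℕ) : ℝ)) = (N2 : ℝ) - N1 := by rw [Nat.cast_sub h12]
  have h := hcm (t1g c q) q (N2 - N1) N1 N2 hq h12 hN (fun n => t1_g_add c q n)
  have hmem : (0 : ℤ) ∈ Icc (-(q : ℤ)) (q : ℤ) := by
    rw [mem_Icc]
    constructor <;> omega
  rw [← Finset.sum_filter_add_sum_filter_not (Icc (-(q : ℤ)) (q : ℤ)) (fun a => a ≠ 0)] at h
  have hz : ∑ j ∈ (Icc (-(q : ℤ)) (q : ℤ)).filter (fun a => ¬ (a ≠ 0)),
      SL.wE (N2 - N1) q j * ‖SL.hE (t1g c q) q j‖ = SL.wE (N2 - N1) q 0 * ‖SL.hE (t1g c q) q 0‖ := by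
    have : (Icc (-(q : ℤ)) (q : ℤ)).filter (fun a => ¬ (a ≠ 0)) = {0} := by
      ext a
      rw [mem_filter, mem_singleton, not_not]
      constructor
      · exact fun h => h.2
      · rintro rfl
        exact ⟨hmem, rfl⟩
    rw [this, sum_singleton]
  rw [hz] at h
  have h0 : SL.wE (N2 - N1) q 0 * ‖SL.hE (t1g c q) q 0‖ ≤ T * (((N2 : ℝ) - N1) / q * (Int.gcd c q : ℝ)) := by
    have e1 : SL.wE (N2 - N1) q 0 = ((N2 : ℝ) - N1) / q := by
      unfold SL.wE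
      rw [if_pos rfl, hNR]
    have e2 : ‖SL.hE (t1g c q) q 0‖ ≤ T * (Int.gcd c q : ℝ) := by
      rw [I2a_zero q c hq]
      exact (hrm q c hq).trans (mul_le_mul_of_nonneg_right hτ (Nat.cast_nonneg _))
    have e3 : 0 ≤ ((N2 : ℝ) - N1) / q := by
      apply div_nonneg _ hqR.le
      rw [← hNR]
      positivity
    rw [e1]
    calc ((N2 : ℝ) - N1) / q * ‖SL.hE (t1g c q) q 0‖ ≤ ((N2 : ℝ) - N1) / q * (T * (Int.gcd c q : ℝ)) :=
          mul_le_mul_of_nonneg_left e2 e3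
      _ = T * (((N2 : ℝ) - N1) / q * (Int.gcd c q : ℝ)) := by ring
  have hzg1 := hzg X T 1 1 q (N2 - N1) q q 1 hTau le_rfl le_rfl hq hq (by simp) (by simp) (by simp) (by simp)
    (by simpa using hX) hX
  have hj : ∑ j ∈ (Icc (-(q : ℤ)) (q : ℤ)).filter (fun a => a ≠ 0),
      SL.wE (N2 - N1) q j * ‖SL.hE (t1g c q) q j‖ ≤ (T * Real.sqrt q) * T ^ 2 := by
    refine le_trans ?_ (mul_le_mul_of_nonneg_left hzg1 (mul_nonneg hT0 (Real.sqrt_nonneg _)))
    rw [mul_sum]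
    refine sum_le_sum fun j _ => ?_
    have e1 := hkh X T 1 q c j hTau (by simpa using hsq) (by simpa using hX)
    rw [one_mul] at e1
    have e2 : (Int.gcd c ((1 : ℕ) : ℤ) : ℝ) = 1 := by simp
    rw [e2, mul_one] at e1
    have e3 : (0 : ℝ) ≤ SL.wE (N2 - N1) q j := by
      unfold SL.wE
      split_ifs
      · positivity
      · exact le_min (by positivity) (by positivity)
    calc SL.wE (N2 - N1) q j * ‖SL.hE (t1g c q) q j‖
        ≤ SL.wE (N2 - N1) q j * (T * Real.sqrt q * Real.sqrt (Int.gcd j (q : ℤ) : ℝ)) :=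
          mul_le_mul_of_nonneg_left e1 e3
      _ = (T * Real.sqrt q) * (SL.wE (N2 - N1) q j * ((Int.gcd (1 * j) ((1 : ℕ) : ℤ) : ℝ) *
          Real.sqrt (Int.gcd (1 * j) ((1 : ℕ) : ℤ) : ℝ) * Real.sqrt (Int.gcd j (q : ℤ) : ℝ))) := by
          simp
          ring
  calc ‖∑ n ∈ Ioc N1 N2, t1g c q n‖ ≤ _ := h
    _ ≤ (T * Real.sqrt q) * T ^ 2 + T * (((N2 : ℝ) - N1) / q * (Int.gcd c q : ℝ)) := add_le_add hj h0
    _ = T * (((N2 : ℝ) - N1) / q * (Int.gcd c q : ℝ)) + T ^ 3 * Real.sqrt q := by ring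

end Pool.Agent.Lib.SLN
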