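import Pool.Agent.Lib.SLN.DefI2
import Pool.Agent.Lib.EH3.LS2

/-!
MP_00e23e_nt, project NL, chapter A', Type I2, module I2b (helper54): completing the second variable.
-/

namespace Pool.Agent.Lib.SLN

open Finset Pool.Agent.Lib.EH3 Pool.Agent.Lib.TB Pool.Agent.Results.MP_00e23e_nt Pool.Agent.Lib.MI

/-- exactly one residue -/
private lemma I2b_one (k : ℕ) (a c l2 l2' : ℤ) (hk : 1 ≤ k) (hl : (k : ℤ) ∣ l2 * l2' - 1) :
    ∑ x ∈ range k, (if (k : ℤ) ∣ a - l2 * x then en (c * x) k else 0) =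
      en (c * (a * l2')) k := by
  have hk0 : (0 : ℤ) < k := by exact_mod_cast hk
  have h0 : 0 ≤ (a * l2') % (k : ℤ) := Int.emod_nonneg _ hk0.ne'
  have h1 : (a * l2') % (k : ℤ) < k := Int.emod_lt_of_pos _ hk0
  obtain ⟨x0, hx0⟩ := Int.eq_ofNat_of_zero_le h0
  have hx0k : x0 < k := by
    rw [hx0] at h1
    exact_mod_cast h1
  have hdx0 : (k : ℤ) ∣ a * l2' - x0 := by
    rw [← hx0]
    exact Int.dvd_self_sub_emod
  have hiff : ∀ x : ℤ, (k : ℤ) ∣ a - l2 * x ↔ (k : ℤ) ∣ a * l2' - x := by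
    intro x
    constructor
    · intro h
      have h2 := (h.mul_left l2').add (hl.mul_left x)
      have e : l2' * (a - l2 * x) + x * (l2 * l2' - 1) = a * l2' - x := by ring
      rwa [e] at h2
    · intro h
      have h2 := (h.mul_left l2).sub (hl.mul_left a)
      have e : l2 * (a * l2' - x) - a * (l2 * l2' - 1) = a - l2 * x := by ring
      rwa [e] at h2
  rw [sum_eq_single x0]
  · rw [if_pos ((hiff x0).2 hdx0)]
    apply en_congr
    have e : c * (x0 : ℤ) - c * (a * l2') = -c * (a * l2' - x0) := by ring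
    rw [e]
    exact hdx0.mul_left _
  · intro x hx hne
    rw [if_neg]
    intro h
    apply hne
    have h2 := (hiff x).1 h
    have h3 : (k : ℤ) ∣ (x : ℤ) - x0 := by
      have h4 := hdx0.sub h2
      have e : a * l2' - (x0 : ℤ) - (a * l2' - x) = x - x0 := by ring
      rwa [e] at h4
    have hxk := mem_range.1 hx
    have h5 : (x : ℤ) - x0 = 0 := by
      apply Int.eq_zero_of_abs_lt_dvd h3
      rw [abs_lt]
      constructor <;> omega
    omega
  · intro h
    exact absurd (mem_range.2 hx0k) h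

/-- orthogonality -/
private lemma I2b_orth (q : ℕ) (j : ℤ) (hq : 1 ≤ q) :
    ∑ l ∈ range q, en (j * l) q = if (q : ℤ) ∣ j then (q : ℂ) else 0 := by
  rw [← orth hq j]
  refine sum_congr rfl fun l _ => ?_
  unfold en
  congr 1
  push_cast
  ring

/-- the complete sum over l for a fixed k -/
private lemma I2b_k (q k : ℕ) (b j : ℤ) (hq : 1 ≤ q) (hb : Int.gcd b q = 1) :
    ∑ l ∈ range q, (dl b q (k * l) - (if k.Coprime q then 1 / (q : ℂ) else 0)) * en (j * l) q =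
      if (q : ℤ) ∣ j then 0 else t1g (j * b) q k := by
  have hqC : (q : ℂ) ≠ 0 := by exact_mod_cast (by omega : q ≠ 0)
  simp only [sub_mul]
  rw [sum_sub_distrib, ← mul_sum, I2b_orth q j hq]
  by_cases hk : k.Coprime q
  · have h1 : ∑ l ∈ range q, dl b q (k * l) * en (j * l) q = en (j * b * (iv k q : ℤ)) q := by
      have h2 := I2b_one q b j k (iv k q) hq (by
        rw [mul_comm]
        exact iv_dvd hk hq)
      rw [show j * b * (iv k q : ℤ) = j * (b * (iv k q : ℤ)) by ring, ← h2]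
      refine sum_congr rfl fun l _ => ?_
      unfold dl
      have e : (q : ℤ) ∣ ((k * l : ℕ) : ℤ) - b ↔ (q : ℤ) ∣ b - (k : ℤ) * l := by
        rw [← dvd_neg]
        have : -(((k * l : ℕ) : ℤ) - b) = b - (k : ℤ) * l := by
          push_cast
          ring
        rw [this]
      by_cases h : (q : ℤ) ∣ b - (k : ℤ) * l
      · rw [if_pos h, if_pos (e.2 h), one_mul]
      · rw [if_neg h, if_neg (fun h' => h (e.1 h')), zero_mul]
    rw [h1, if_pos hk]
    by_cases hj : (q : ℤ) ∣ j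
    · rw [if_pos hj, if_pos hj, en_of_dvd ((hj.mul_right b).mul_right _)]
      field_simp
      ring
    · rw [if_neg hj, if_neg hj, mul_zero, sub_zero]
      unfold t1g
      rw [if_pos hk]
  · have h1 : ∀ l ∈ range q, dl b q (k * l) * en (j * l) q = 0 := by
      intro l _
      unfold dl
      rw [if_neg, zero_mul]
      intro h
      apply hk
      have h2 : Nat.gcd k q = 1 := by
        have h3 : ((Nat.gcd k q : ℕ) : ℤ) ∣ b := by
          have h4 : ((Nat.gcd k q : ℕ) : ℤ) ∣ ((k * l : ℕ) : ℤ) := by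
            exact_mod_cast (Nat.gcd_dvd_left k q).mul_right l
          have h5 : ((Nat.gcd k q : ℕ) : ℤ) ∣ ((k * l : ℕ) : ℤ) - b :=
            (Int.natCast_dvd_natCast.2 (Nat.gcd_dvd_right k q)).trans h
          exact (dvd_sub_right h4).1 h5
        have h6 : ((Nat.gcd k q : ℕ) : ℤ) ∣ ((q : ℕ) : ℤ) := Int.natCast_dvd_natCast.2 (Nat.gcd_dvd_right k q)
        have h7 : Nat.gcd k q ∣ Int.gcd b q := by
          exact_mod_cast Int.dvd_coe_gcd h3 h6
        rw [hb] at h7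
        exact Nat.dvd_one.1 h7
      exact h2
    rw [sum_congr rfl h1, sum_const_zero, if_neg hk, zero_mul, sub_zero]
    unfold t1g
    rw [if_neg hk]
    split_ifs <;> rfl

theorem tI2b (hcm : SL.EcmStmt) (hA : I2aStmt) (hzg : SL.EzgStmt) : I2bStmt := by
  intro X T q K1 K2 L1 L2 b hTau hsq hX hb hK hL
  have hq0 : q ≠ 0 := hsq.ne_zero
  have hq : 1 ≤ q := Nat.one_le_iff_ne_zero.2 hq0
  have hqR : (0 : ℝ) < q := by exact_mod_cast hq
  have hT1 : 1 ≤ T := hTau.1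
  have hT0 : 0 ≤ T := by linarith
  have hΔ : 0 ≤ ((K2 : ℝ) - K1) / q := by
    apply div_nonneg _ hqR.le
    have : (K1 : ℝ) ≤ K2 := by exact_mod_cast hK
    linarith
  obtain ⟨H, hH⟩ : ∃ H : ℕ → ℂ, H = fun l => ∑ k ∈ Ioc K1 K2,
      (dl b q (k * l) - (if k.Coprime q then 1 / (q : ℂ) else 0)) := ⟨_, rfl⟩
  have hper : ∀ l, H (l + q) = H l := by
    intro l
    rw [hH]
    refine sum_congr rfl fun k _ => ?_
    congr 1
    unfold dl
    have e : (q : ℤ) ∣ ((k * (l + q) : ℕ) : ℤ) - b ↔ (q : ℤ) ∣ ((k * l : ℕ) : ℤ) - b := by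
      have : ((k * (l + q) : ℕ) : ℤ) - b = (((k * l : ℕ) : ℤ) - b) + (q : ℤ) * k := by
        push_cast
        ring
      rw [this]
      exact dvd_add_left (dvd_mul_right _ _)
    by_cases h : (q : ℤ) ∣ ((k * l : ℕ) : ℤ) - b
    · rw [if_pos h, if_pos (e.2 h)]
    · rw [if_neg h, if_neg (fun h' => h (e.1 h'))]
  have hN : L2 ≤ L1 + (L2 - L1) := by omega
  have hmain := hcm H q (L2 - L1) L1 L2 hq hL hN hper
  have hswap : ∑ k ∈ Ioc K1 K2, ∑ l ∈ Ioc L1 L2, (dl b q (k * l) - (if k.Coprime q then 1 / (q : ℂ) else 0)) =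
      ∑ l ∈ Ioc L1 L2, H l := by
    rw [sum_comm, hH]
  rw [hswap]
  have hhE : ∀ j : ℤ, SL.hE H q j = if (q : ℤ) ∣ j then 0 else ∑ k ∈ Ioc K1 K2, t1g (j * b) q k := by
    intro j
    unfold SL.hE
    rw [hH]
    simp only [sum_mul]
    rw [sum_comm]
    rw [sum_congr rfl (fun k _ => I2b_k q k b j hq hb)]
    by_cases hj : (q : ℤ) ∣ j
    · simp only [if_pos hj, sum_const_zero]
    · simp only [if_neg hj]
  have hw0 : ∀ j : ℤ, 0 ≤ SL.wE (L2 - L1) q j := by
    intro j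
    unfold SL.wE
    split_ifs
    · positivity
    · exact le_min (by positivity) (by positivity)
  have hz1 := hzg X T q 1 1 (L2 - L1) q q 1 hTau hq le_rfl le_rfl hq (by simp) (by simp) (by simp) (by simp)
    (by simpa using hX) hX
  have hz2 : ∑ j ∈ (Icc (-(q : ℤ)) (q : ℤ)).filter (fun a => a ≠ 0), SL.wE (L2 - L1) q j * (Int.gcd j q : ℝ) ≤ T ^ 2 := by
    refine le_trans (le_of_eq ?_) hz1
    refine sum_congr rfl fun j _ => ?_
    simp
  have hz3 : ∑ j ∈ (Icc (-(q : ℤ)) (q : ℤ)).filter (fun a => a ≠ 0), SL.wE (L2 - L1) q j ≤ T ^ 2 := by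
    refine le_trans (sum_le_sum fun j hj => ?_) hz2
    have h1 : 1 ≤ Int.gcd j q := Nat.pos_of_ne_zero fun h0 => (mem_filter.1 hj).2 (Int.gcd_eq_zero_iff.1 h0).1
    have h2 : (1 : ℝ) ≤ (Int.gcd j q : ℝ) := by exact_mod_cast h1
    exact le_mul_of_one_le_right (hw0 j) h2
  refine hmain.trans ?_
  have hsplit : ∑ j ∈ Icc (-(q : ℤ)) (q : ℤ), SL.wE (L2 - L1) q j * ‖SL.hE H q j‖ ≤
      ∑ j ∈ (Icc (-(q : ℤ)) (q : ℤ)).filter (fun a => a ≠ 0), SL.wE (L2 - L1) q j *
        (T * (((K2 : ℝ) - K1) / q * (Int.gcd j q : ℝ)) + T ^ 3 * Real.sqrt q) := by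
    rw [← Finset.sum_filter_add_sum_filter_not (Icc (-(q : ℤ)) (q : ℤ)) (fun a => a ≠ 0)]
    have hz : ∑ j ∈ (Icc (-(q : ℤ)) (q : ℤ)).filter (fun a => ¬ (a ≠ 0)),
        SL.wE (L2 - L1) q j * ‖SL.hE H q j‖ = 0 := by
      refine sum_eq_zero fun j hj => ?_
      have h1 : j = 0 := by
        have := (mem_filter.1 hj).2
        rwa [not_not] at this
      rw [hhE, if_pos (by rw [h1]; exact dvd_zero _), norm_zero, mul_zero]
    rw [hz, add_zero]
    refine sum_le_sum fun j _ => mul_le_mul_of_nonneg_left ?_ (hw0 j)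
    rw [hhE]
    split_ifs with hj
    · rw [norm_zero]
      positivity
    · refine (hA X T q K1 K2 (j * b) hTau hsq hX hK).trans ?_
      have e : Int.gcd (j * b) q = Int.gcd j q := by
        have hbc : IsCoprime b (q : ℤ) := Int.isCoprime_iff_gcd_eq_one.2 hb
        apply Nat.dvd_antisymm
        · have h1 : ((Int.gcd (j * b) q : ℕ) : ℤ) ∣ j * b := Int.gcd_dvd_left _ _
          have h2 : ((Int.gcd (j * b) q : ℕ) : ℤ) ∣ (q : ℤ) := Int.gcd_dvd_right _ _
          have h3 : IsCoprime ((Int.gcd (j * b) q : ℕ) : ℤ) b := (IsCoprime.of_isCoprime_of_dvd_right hbc h2).symm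
          exact_mod_cast Int.dvd_coe_gcd (h3.dvd_of_dvd_mul_right h1) h2
        · exact_mod_cast Int.dvd_coe_gcd ((Int.gcd_dvd_left _ _).mul_right b) (Int.gcd_dvd_right j (q : ℤ))
      rw [e]
  refine hsplit.trans ?_
  have hfin : ∑ j ∈ (Icc (-(q : ℤ)) (q : ℤ)).filter (fun a => a ≠ 0), SL.wE (L2 - L1) q j *
        (T * (((K2 : ℝ) - K1) / q * (Int.gcd j q : ℝ)) + T ^ 3 * Real.sqrt q) =
      T * (((K2 : ℝ) - K1) / q) * (∑ j ∈ (Icc (-(q : ℤ)) (q : ℤ)).filter (fun a => a ≠ 0),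
        SL.wE (L2 - L1) q j * (Int.gcd j q : ℝ)) +
      T ^ 3 * Real.sqrt q * ∑ j ∈ (Icc (-(q : ℤ)) (q : ℤ)).filter (fun a => a ≠ 0), SL.wE (L2 - L1) q j := by
    rw [mul_sum, mul_sum, ← sum_add_distrib]
    refine sum_congr rfl fun j _ => ?_
    ring
  rw [hfin]
  have hs : 0 ≤ Real.sqrt (q : ℝ) := Real.sqrt_nonneg _
  calc _ ≤ T * (((K2 : ℝ) - K1) / q) * T ^ 2 + T ^ 3 * Real.sqrt q * T ^ 2 :=
        add_le_add (mul_le_mul_of_nonneg_left hz2 (mul_nonneg hT0 hΔ))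
          (mul_le_mul_of_nonneg_left hz3 (by positivity))
    _ = T ^ 3 * (((K2 : ℝ) - K1) / q) + T ^ 5 * Real.sqrt q := by ring
    _ ≤ T ^ 5 * (((K2 : ℝ) - K1) / q) + T ^ 5 * Real.sqrt q := by
        have : T ^ 3 ≤ T ^ 5 := pow_le_pow_right₀ hT1 (by norm_num)
        have := mul_le_mul_of_nonneg_right this hΔ
        linarith
    _ = T ^ 5 * (Real.sqrt q + ((K2 : ℝ) - K1) / q) := by ring

end Pool.Agent.Lib.SLN
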