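import Pool.Agent.Lib.SLN.DefI2
import Pool.Agent.Lib.MI.Act

/-!
MP_00e23e_nt, project NL, chapter A', Type I2, modules I2c and I2 (helper54): reduced numbers in an interval; boxes, t = 1.
-/

namespace Pool.Agent.Lib.SLN

open Finset Pool.Agent.Lib.EH3 Pool.Agent.Lib.TB Pool.Agent.Results.MP_00e23e_nt Pool.Agent.Lib.MI

/-- s ≤ τ(s) φ(s) -/
private lemma I2c_tau (s : ℕ) (hs : 1 ≤ s) : (s : ℝ) ≤ (s.divisors.card : ℝ) * s.totient := by
  have h1 : ∑ d ∈ s.divisors, d.totient = s := Nat.sum_totient s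
  have h2 : ∑ d ∈ s.divisors, d.totient ≤ ∑ _d ∈ s.divisors, s.totient := by
    refine Finset.sum_le_sum fun d hd => ?_
    exact Nat.le_of_dvd (Nat.totient_pos.2 hs) (Nat.totient_dvd_of_dvd (Nat.mem_divisors.1 hd).1)
  rw [h1, Finset.sum_const, smul_eq_mul] at h2
  exact_mod_cast h2

theorem tI2c : I2cStmt := by
  intro X T q L1 L2 hTau hsq hX hL
  have hq0 : q ≠ 0 := hsq.ne_zero
  have hq : 1 ≤ q := Nat.one_le_iff_ne_zero.2 hq0
  have hqR : (0 : ℝ) < q := by exact_mod_cast hq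
  have hT1 : 1 ≤ T := hTau.1
  have hT0 : 0 ≤ T := by linarith
  have hτ : (q.divisors.card : ℝ) ≤ T := hTau.2.2 q hq hX
  have hφ : (0 : ℝ) < q.totient := by exact_mod_cast Nat.totient_pos.2 hq
  have key : ∀ X : ℕ, |(((Ioc 0 X).filter (fun l => l.Coprime q)).card : ℝ) - (X : ℝ) * (q.totient : ℝ) / q| ≤ T := by
    intro X
    have h := tAct 1 q X 0 le_rfl hq (by simp)
    have e1 : (Icc 1 X).filter (fun c : ℕ => c.Coprime q ∧ ((1 : ℕ) : ℤ) ∣ (c : ℤ) - 0) =
        (Ioc 0 X).filter (fun l => l.Coprime q) := by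
      ext c
      simp only [mem_filter, mem_Icc, mem_Ioc, Nat.cast_one, one_dvd, and_true]
      constructor
      · rintro ⟨⟨h1, h2⟩, h3⟩
        exact ⟨⟨by omega, h2⟩, h3⟩
      · rintro ⟨⟨h1, h2⟩, h3⟩
        exact ⟨⟨by omega, h2⟩, h3⟩
    rw [e1] at h
    rw [Nat.cast_one, one_mul] at h
    exact h.trans hτ
  have hsum : (((Ioc L1 L2).filter (fun l => l.Coprime q)).card : ℝ) =
      (((Ioc 0 L2).filter (fun l => l.Coprime q)).card : ℝ) -
        (((Ioc 0 L1).filter (fun l => l.Coprime q)).card : ℝ) := by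
    have e : (Ioc 0 L2).filter (fun l => l.Coprime q) =
        (Ioc 0 L1).filter (fun l => l.Coprime q) ∪ (Ioc L1 L2).filter (fun l => l.Coprime q) := by
      rw [← filter_union, Ioc_union_Ioc_eq_Ioc (Nat.zero_le _) hL]
    have hd : Disjoint ((Ioc 0 L1).filter (fun l => l.Coprime q)) ((Ioc L1 L2).filter (fun l => l.Coprime q)) := by
      rw [Finset.disjoint_left]
      intro a ha hb
      have h1 := mem_Ioc.1 (mem_filter.1 ha).1
      have h2 := mem_Ioc.1 (mem_filter.1 hb).1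
      omega
    rw [e, card_union_of_disjoint hd]
    push_cast
    ring
  have h1 := abs_le.1 (key L1)
  have h2 := abs_le.1 (key L2)
  have h3 : |((L2 : ℝ) - L1) * (q.totient : ℝ) / q - (((Ioc L1 L2).filter (fun l => l.Coprime q)).card : ℝ)| ≤
      2 * T := by
    rw [hsum]
    have e : ((L2 : ℝ) - L1) * (q.totient : ℝ) / q = (L2 : ℝ) * (q.totient : ℝ) / q - (L1 : ℝ) * (q.totient : ℝ) / q := by
      ring
    rw [e, abs_le]
    constructor
    · linarith [h1.1, h1.2, h2.1, h2.2]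
    · linarith [h1.1, h1.2, h2.1, h2.2]
  have h4 : ((L2 : ℝ) - L1) / q - (((Ioc L1 L2).filter (fun l => l.Coprime q)).card : ℝ) / (q.totient : ℝ) =
      (((L2 : ℝ) - L1) * (q.totient : ℝ) / q - (((Ioc L1 L2).filter (fun l => l.Coprime q)).card : ℝ)) /
        (q.totient : ℝ) := by
    field_simp
  rw [h4, abs_div, abs_of_pos hφ, div_le_div_iff₀ hφ hqR]
  have h5 := I2c_tau q hq
  have h6 : (q : ℝ) ≤ T * (q.totient : ℝ) := h5.trans (mul_le_mul_of_nonneg_right hτ hφ.le)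
  calc |((L2 : ℝ) - L1) * (q.totient : ℝ) / q - (((Ioc L1 L2).filter (fun l => l.Coprime q)).card : ℝ)| * (q : ℝ)
      ≤ (2 * T) * (T * (q.totient : ℝ)) := mul_le_mul h3 h6 hqR.le (by positivity)
    _ = 2 * T ^ 2 * (q.totient : ℝ) := by ring

theorem tI2 (hB : I2bStmt) (hC : I2cStmt) : I2Stmt := by
  intro X T q K1 K2 L1 L2 b hTau hsq hX hb hK hL
  have hq0 : q ≠ 0 := hsq.ne_zero
  have hq : 1 ≤ q := Nat.one_le_iff_ne_zero.2 hq0
  have hqR : (0 : ℝ) < q := by exact_mod_cast hq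
  have hT1 : 1 ≤ T := hTau.1
  have hT0 : 0 ≤ T := by linarith
  have hK' : (K1 : ℝ) ≤ K2 := by exact_mod_cast hK
  have hΔ : 0 ≤ ((K2 : ℝ) - K1) / q := div_nonneg (by linarith) hqR.le
  have h1 := hB X T q K1 K2 L1 L2 b hTau hsq hX hb hK hL
  have h2 := hC X T q L1 L2 hTau hsq hX hL
  -- the difference
  have hk : ∀ k ∈ Ioc K1 K2, ∑ l ∈ Ioc L1 L2, Ek b 1 q (k * l) =
      ∑ l ∈ Ioc L1 L2, (dl b q (k * l) - (if k.Coprime q then 1 / (q : ℂ) else 0)) +
      (if k.Coprime q then (((((L2 : ℝ) - L1) / q - (((Ioc L1 L2).filter (fun l => l.Coprime q)).card : ℝ) /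
        (q.totient : ℝ) : ℝ)) : ℂ) else 0) := by
    intro k _
    have e1 : ∀ l : ℕ, Ek b 1 q (k * l) = dl b q (k * l) -
        (if k.Coprime q then (if l.Coprime q then 1 / ((q.totient : ℕ) : ℂ) else 0) else 0) := by
      intro l
      unfold Ek
      have h3 : dl b 1 (k * l) = 1 := by
        unfold dl
        rw [if_pos (by simp)]
      rw [h3, Nat.div_one, mul_one]
      congr 1
      by_cases h4 : k.Coprime q
      · by_cases h5 : l.Coprime q
        · rw [if_pos (Nat.Coprime.mul_left h4 h5), if_pos h4, if_pos h5]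
        · rw [if_neg (fun h6 => h5 (Nat.Coprime.coprime_mul_left h6)), if_pos h4, if_neg h5]
      · rw [if_neg (fun h6 => h4 (Nat.Coprime.coprime_mul_right h6)), if_neg h4]
    simp only [e1]
    rw [sum_sub_distrib, sum_sub_distrib]
    by_cases h4 : k.Coprime q
    · simp only [if_pos h4]
      rw [← sum_filter, sum_const, sum_const, Nat.card_Ioc, nsmul_eq_mul, nsmul_eq_mul]
      push_cast [Nat.cast_sub hL]
      ring
    · simp only [if_neg h4, sum_const_zero, sub_zero, add_zero]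
  rw [sum_congr rfl hk, sum_add_distrib]
  refine (norm_add_le _ _).trans ?_
  have h3 : ‖∑ k ∈ Ioc K1 K2, (if k.Coprime q then (((((L2 : ℝ) - L1) / q -
      (((Ioc L1 L2).filter (fun l => l.Coprime q)).card : ℝ) / (q.totient : ℝ) : ℝ)) : ℂ) else 0)‖ ≤
      ((K2 : ℝ) - K1) * (2 * T ^ 2 / q) := by
    refine (norm_sum_le _ _).trans ?_
    have h4 : ∀ k ∈ Ioc K1 K2, ‖(if k.Coprime q then (((((L2 : ℝ) - L1) / q -
      (((Ioc L1 L2).filter (fun l => l.Coprime q)).card : ℝ) / (q.totient : ℝ) : ℝ)) : ℂ) else 0)‖ ≤ 2 * T ^ 2 / q := by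
      intro k _
      split_ifs
      · rw [Complex.norm_real, Real.norm_eq_abs]
        exact h2
      · rw [norm_zero]
        positivity
    refine (sum_le_sum h4).trans ?_
    rw [sum_const, Nat.card_Ioc, nsmul_eq_mul, Nat.cast_sub hK]
  have h5 : ((K2 : ℝ) - K1) * (2 * T ^ 2 / q) = 2 * T ^ 2 * (((K2 : ℝ) - K1) / q) := by ring
  have h6 : T ^ 2 ≤ T ^ 5 := pow_le_pow_right₀ hT1 (by norm_num)
  have h7 : T ^ 2 * (((K2 : ℝ) - K1) / q) ≤ T ^ 5 * (((K2 : ℝ) - K1) / q) := mul_le_mul_of_nonneg_right h6 hΔ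
  have h8 : 0 ≤ T ^ 5 * Real.sqrt q := mul_nonneg (by positivity) (Real.sqrt_nonneg _)
  calc _ ≤ T ^ 5 * (Real.sqrt q + ((K2 : ℝ) - K1) / q) + ((K2 : ℝ) - K1) * (2 * T ^ 2 / q) := add_le_add h1 h3
    _ ≤ 3 * T ^ 5 * (Real.sqrt q + ((K2 : ℝ) - K1) / q) := by
        rw [h5]
        nlinarith [h7, h8]

end Pool.Agent.Lib.SLN
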