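import Pool.Agent.Lib.SLN.DefI2
import Pool.Agent.Lib.SL.Ecr

/-!
MP_00e23e_nt, project NL, chapter A', Type I2, module I2k (helper54): boxes, Ek a t q (m k l), every m.
-/

namespace Pool.Agent.Lib.SLN

open Finset Pool.Agent.Lib.EH3 Pool.Agent.Lib.TB Pool.Agent.Results.MP_00e23e_nt Pool.Agent.Lib.MI

/-- a number congruent to a reduced class is coprime to the modulus -/
private lemma I2k_cop {a : ℤ} {t n : ℕ} (ha : Int.gcd a t = 1) (h : (t : ℤ) ∣ (n : ℤ) - a) : n.Coprime t := by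
  have h2 : IsCoprime a (t : ℤ) := Int.isCoprime_iff_gcd_eq_one.2 ha
  rw [← Nat.isCoprime_iff_coprime]
  obtain ⟨z, hz⟩ := h
  have e : (n : ℤ) = a + t * z := by linarith
  rw [e]
  exact (IsCoprime.add_mul_left_left_iff).2 h2

/-- the gcd with a divisor of the modulus -/
private lemma I2k_gcd {a : ℤ} {t q : ℕ} (ht : t ∣ q) (ha : Int.gcd a q = 1) : Int.gcd a t = 1 := by
  have h1 : IsCoprime a (q : ℤ) := Int.isCoprime_iff_gcd_eq_one.2 ha
  exact Int.isCoprime_iff_gcd_eq_one.1 (IsCoprime.of_isCoprime_of_dvd_right h1 (Int.natCast_dvd_natCast.2 ht))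

/-- Ek vanishes outside the reduced classes -/
private lemma I2k_zero {a : ℤ} {t q n : ℕ} (ht : t ∣ q) (ha : Int.gcd a q = 1) (hn : ¬ n.Coprime q) :
    Ek a t q n = 0 := by
  have e1 : dl a q n = 0 := by
    unfold dl
    exact if_neg (fun h => hn (I2k_cop ha h))
  unfold Ek
  rw [e1, zero_sub, neg_eq_zero]
  split_ifs with h
  · have e2 : dl a t n = 0 := by
      unfold dl
      refine if_neg (fun h1 => hn ?_)
      have h2 : n.Coprime t := I2k_cop (I2k_gcd ht ha) h1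
      have h3 := Nat.Coprime.mul_right h2 h
      rwa [Nat.mul_div_cancel' ht] at h3
    rw [e2, mul_zero]
  · rfl

/-- division of the argument by m -/
private lemma I2k_m {a : ℤ} {t q m : ℕ} (hq : 1 ≤ q) (ht : t ∣ q) (hm : m.Coprime q) (n : ℕ) :
    Ek a t q (m * n) = Ek (a * (iv m q : ℤ)) t q n := by
  have hiv := iv_dvd hm hq
  have key : ∀ d : ℕ, d ∣ q → dl a d (m * n) = dl (a * (iv m q : ℤ)) d n := by
    intro d hd
    have hd' : (d : ℤ) ∣ (iv m q : ℤ) * m - 1 := (Int.natCast_dvd_natCast.2 hd).trans hiv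
    unfold dl
    have e : (d : ℤ) ∣ ((m * n : ℕ) : ℤ) - a ↔ (d : ℤ) ∣ (n : ℤ) - a * (iv m q : ℤ) := by
      constructor
      · intro h
        have h2 := (h.mul_left (iv m q : ℤ)).sub (hd'.mul_left (n : ℤ))
        have e : (iv m q : ℤ) * (((m * n : ℕ) : ℤ) - a) - (n : ℤ) * ((iv m q : ℤ) * m - 1) = n - a * (iv m q : ℤ) := by
          push_cast
          ring
        rwa [e] at h2
      · intro h
        have h2 := (h.mul_left (m : ℤ)).add (hd'.mul_left a)
        have e : (m : ℤ) * ((n : ℤ) - a * (iv m q : ℤ)) + a * ((iv m q : ℤ) * m - 1) = ((m * n : ℕ) : ℤ) - a := by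
          push_cast
          ring
        rwa [e] at h2
    by_cases h : (d : ℤ) ∣ ((m * n : ℕ) : ℤ) - a
    · rw [if_pos h, if_pos (e.1 h)]
    · rw [if_neg h, if_neg (fun h' => h (e.2 h'))]
  unfold Ek
  rw [key q (dvd_refl _), key t ht]
  have hmu : m.Coprime (q / t) := hm.coprime_dvd_right (Nat.div_dvd_of_dvd ht)
  by_cases h : n.Coprime (q / t)
  · rw [if_pos h, if_pos (Nat.Coprime.mul_left hmu h)]
  · rw [if_neg h, if_neg (fun h1 => h (Nat.Coprime.coprime_mul_left h1))]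

/-- the classes over a modulo t -/
private def I2k_B (a : ℤ) (t q : ℕ) : Finset ℕ := (range q).filter (fun b => b.Coprime (q / t) ∧ (t : ℤ) ∣ (b : ℤ) - a)

private lemma I2k_B_gcd {a : ℤ} {t q b : ℕ} (ht : t ∣ q) (ha : Int.gcd a q = 1) (hb : b ∈ I2k_B a t q) :
    Int.gcd (b : ℤ) q = 1 := by
  unfold I2k_B at hb
  rw [mem_filter] at hb
  have h1 : b.Coprime t := I2k_cop (I2k_gcd ht ha) hb.2.2
  have h2 := Nat.Coprime.mul_right h1 hb.2.1
  rw [Nat.mul_div_cancel' ht] at h2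
  rw [Int.gcd_natCast_natCast]
  exact h2

/-- number of the classes -/
private lemma I2k_card {a : ℤ} {t q : ℕ} (hq : Squarefree q) (ht : t ∣ q) :
    (I2k_B a t q).card = (q / t).totient := by
  obtain ⟨u, hu⟩ := ht
  have hq0 : q ≠ 0 := hq.ne_zero
  have ht1 : 1 ≤ t := Nat.one_le_iff_ne_zero.2 (fun h => hq0 (by rw [hu, h, zero_mul]))
  have hu1 : 1 ≤ u := Nat.one_le_iff_ne_zero.2 (fun h => hq0 (by rw [hu, h, mul_zero]))
  have hdiv : q / t = u := by rw [hu, Nat.mul_div_cancel_left u ht1]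
  have htu : t.Coprime u := by
    rw [hu] at hq
    exact Nat.coprime_of_squarefree_mul hq
  have h := SL.tEcr t u (fun n => if (t : ℤ) ∣ (n : ℤ) - a then 1 else 0) (fun n => if n.Coprime u then 1 else 0)
    ht1 hu1 htu
    (by
      intro n
      have e : (t : ℤ) ∣ ((n + t : ℕ) : ℤ) - a ↔ (t : ℤ) ∣ (n : ℤ) - a := by
        have : ((n + t : ℕ) : ℤ) - a = ((n : ℤ) - a) + t := by
          push_cast
          ring
        rw [this]
        exact dvd_add_left (dvd_refl _)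
      by_cases h : (t : ℤ) ∣ (n : ℤ) - a
      · rw [if_pos h, if_pos (e.2 h)]
      · rw [if_neg h, if_neg (fun h' => h (e.1 h'))])
    (by
      intro n
      have e : (n + u).Coprime u ↔ n.Coprime u := by simp
      by_cases h : n.Coprime u
      · rw [if_pos h, if_pos (e.2 h)]
      · rw [if_neg h, if_neg (fun h' => h (e.1 h'))])
  have h1 : ∑ n ∈ range (t * u), (if (t : ℤ) ∣ (n : ℤ) - a then (1 : ℂ) else 0) * (if n.Coprime u then 1 else 0) =
      ((I2k_B a t q).card : ℂ) := by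
    unfold I2k_B
    rw [hdiv, ← hu, card_filter]
    push_cast
    refine sum_congr rfl fun n _ => ?_
    by_cases h2 : (t : ℤ) ∣ (n : ℤ) - a <;> by_cases h3 : n.Coprime u <;> simp [h2, h3]
  have h2 : ∑ y ∈ range u, (if y.Coprime u then (1 : ℂ) else 0) = ((u.totient : ℕ) : ℂ) := by
    rw [Nat.totient_eq_card_coprime, card_filter]
    push_cast
    refine sum_congr rfl fun n _ => ?_
    by_cases h3 : n.Coprime u
    · rw [if_pos h3, if_pos h3.symm]
    · rw [if_neg h3, if_neg (fun h' => h3 h'.symm)]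
  have h3 : ∑ x ∈ range t, (if (t : ℤ) ∣ (x : ℤ) - a then (1 : ℂ) else 0) = 1 := by
    have ht0 : (0 : ℤ) < t := by exact_mod_cast ht1
    have g0 : 0 ≤ a % (t : ℤ) := Int.emod_nonneg _ ht0.ne'
    have g1 : a % (t : ℤ) < t := Int.emod_lt_of_pos _ ht0
    obtain ⟨x0, hx0⟩ := Int.eq_ofNat_of_zero_le g0
    have hx0t : x0 < t := by
      rw [hx0] at g1
      exact_mod_cast g1
    have hd : (t : ℤ) ∣ a - x0 := by
      rw [← hx0]
      exact Int.dvd_self_sub_emod
    rw [sum_eq_single x0]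
    · rw [if_pos]
      have : (x0 : ℤ) - a = -(a - x0) := by ring
      rw [this, dvd_neg]
      exact hd
    · intro x hx hne
      rw [if_neg]
      intro h4
      apply hne
      have h5 : (t : ℤ) ∣ (x : ℤ) - x0 := by
        have h6 := h4.add hd
        have e : (x : ℤ) - a + (a - x0) = x - x0 := by ring
        rwa [e] at h6
      have hxt := mem_range.1 hx
      have h6 : (x : ℤ) - x0 = 0 := by
        apply Int.eq_zero_of_abs_lt_dvd h5
        rw [abs_lt]
        constructor <;> omega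
      omega
    · intro h
      exact absurd (mem_range.2 hx0t) h
  rw [h1, h2, h3, one_mul] at h
  rw [hdiv]
  exact_mod_cast h

/-- the sum over the classes -/
private lemma I2k_sum {a : ℤ} {t q : ℕ} (hq : 1 ≤ q) (ht : t ∣ q) (n : ℕ) :
    ∑ b ∈ I2k_B a t q, dl (b : ℤ) q n = if n.Coprime (q / t) then dl a t n else 0 := by
  have hu : (q / t) ∣ q := Nat.div_dvd_of_dvd ht
  have hmod : (q : ℤ) ∣ (n : ℤ) - ((n % q : ℕ) : ℤ) := by
    push_cast
    exact Int.dvd_self_sub_emod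
  by_cases h : n.Coprime (q / t) ∧ (t : ℤ) ∣ (n : ℤ) - a
  · rw [if_pos h.1]
    have e2 : dl a t n = 1 := by
      unfold dl
      exact if_pos h.2
    rw [e2, sum_eq_single (n % q)]
    · unfold dl
      exact if_pos hmod
    · intro b hb hne
      unfold dl
      rw [if_neg]
      intro h4
      apply hne
      have hbq : b < q := mem_range.1 (mem_filter.1 hb).1
      have h5 : (q : ℤ) ∣ (b : ℤ) - ((n % q : ℕ) : ℤ) := by
        have h6 := hmod.sub h4
        have e : (n : ℤ) - ((n % q : ℕ) : ℤ) - ((n : ℤ) - b) = b - ((n % q : ℕ) : ℤ) := by ring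
        rwa [e] at h6
      have hnq : n % q < q := Nat.mod_lt _ hq
      have h6 : (b : ℤ) - ((n % q : ℕ) : ℤ) = 0 := by
        apply Int.eq_zero_of_abs_lt_dvd h5
        rw [abs_lt]
        constructor <;> omega
      omega
    · intro h4
      exfalso
      apply h4
      unfold I2k_B
      rw [mem_filter, mem_range]
      refine ⟨Nat.mod_lt _ hq, ?_, ?_⟩
      · have e : (n % q) % (q / t) = n % (q / t) := Nat.mod_mod_of_dvd n hu
        have h5 : Nat.gcd (n % q) (q / t) = Nat.gcd n (q / t) := by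
          rw [Nat.gcd_comm, Nat.gcd_rec, e, ← Nat.gcd_rec, Nat.gcd_comm]
        unfold Nat.Coprime
        rw [h5]
        exact h.1
      · have h5 : (t : ℤ) ∣ (n : ℤ) - ((n % q : ℕ) : ℤ) := (Int.natCast_dvd_natCast.2 ht).trans hmod
        have h6 := h.2.sub h5
        have e : (n : ℤ) - a - ((n : ℤ) - ((n % q : ℕ) : ℤ)) = ((n % q : ℕ) : ℤ) - a := by ring
        rwa [e] at h6
  · have hL : ∑ b ∈ I2k_B a t q, dl (b : ℤ) q n = 0 := by
      refine sum_eq_zero fun b hb => ?_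
      unfold dl
      rw [if_neg]
      intro h4
      apply h
      unfold I2k_B at hb
      rw [mem_filter] at hb
      constructor
      · have h5 : ((q / t : ℕ) : ℤ) ∣ (n : ℤ) - b := (Int.natCast_dvd_natCast.2 hu).trans h4
        have h6 : Int.gcd (b : ℤ) (q / t : ℕ) = 1 := by
          rw [Int.gcd_natCast_natCast]
          exact hb.2.1
        exact I2k_cop h6 h5
      · have h5 : (t : ℤ) ∣ (n : ℤ) - b := (Int.natCast_dvd_natCast.2 ht).trans h4
        have h6 := h5.add hb.2.2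
        have e : (n : ℤ) - b + ((b : ℤ) - a) = n - a := by ring
        rwa [e] at h6
    rw [hL]
    split_ifs with h1
    · unfold dl
      rw [if_neg (fun h2 => h ⟨h1, h2⟩)]
    · rfl

/-- Ek a t q as a combination of the Ek b 1 q -/
private lemma I2k_avg {a : ℤ} {t q : ℕ} (hq : Squarefree q) (ht : t ∣ q) (n : ℕ) :
    Ek a t q n = Ek a 1 q n - (1 / ((q / t).totient : ℂ)) * ∑ b ∈ I2k_B a t q, Ek (b : ℤ) 1 q n := by
  have hq1 : 1 ≤ q := Nat.one_le_iff_ne_zero.2 hq.ne_zero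
  have hu1 : 1 ≤ q / t := Nat.div_pos (Nat.le_of_dvd hq1 ht) (Nat.pos_of_dvd_of_pos ht hq1)
  have hφ : ((q / t).totient : ℂ) ≠ 0 := by exact_mod_cast (Nat.totient_pos.2 hu1).ne'
  have hdl1 : ∀ c : ℤ, dl c 1 n = 1 := fun c => by
    unfold dl
    exact if_pos (by simp)
  have h1 : ∀ c : ℤ, Ek c 1 q n = dl c q n - (if n.Coprime q then 1 / (q.totient : ℂ) else 0) := by
    intro c
    unfold Ek
    rw [hdl1, Nat.div_one, mul_one]
  rw [h1]
  simp only [h1]
  rw [sum_sub_distrib, sum_const, I2k_card hq ht, I2k_sum hq1 ht, nsmul_eq_mul]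
  unfold Ek
  by_cases h2 : n.Coprime (q / t)
  · rw [if_pos h2, if_pos h2]
    field_simp
    ring
  · rw [if_neg h2, if_neg h2]
    field_simp
    ring

theorem tI2k (h1 : I2Stmt) : I2kStmt := by
  intro X T t q m K1 K2 L1 L2 a hTau hsq hX ht ha hK hL
  have hq0 : q ≠ 0 := hsq.ne_zero
  have hq : 1 ≤ q := Nat.one_le_iff_ne_zero.2 hq0
  have hqR : (0 : ℝ) < q := by exact_mod_cast hq
  have hT1 : 1 ≤ T := hTau.1
  have hT0 : 0 ≤ T := by linarith
  have hK' : (K1 : ℝ) ≤ K2 := by exact_mod_cast hK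
  have hΔ : 0 ≤ ((K2 : ℝ) - K1) / q := div_nonneg (by linarith) hqR.le
  obtain ⟨E, hE⟩ : ∃ E, E = 3 * T ^ 5 * (Real.sqrt q + ((K2 : ℝ) - K1) / q) := ⟨_, rfl⟩
  have hE0 : 0 ≤ E := by
    rw [hE]
    have := Real.sqrt_nonneg (q : ℝ)
    positivity
  have hgoal : 6 * T ^ 5 * (Real.sqrt q + ((K2 : ℝ) - K1) / q) = 2 * E := by
    rw [hE]
    ring
  rw [hgoal]
  by_cases hm : m.Coprime q
  · obtain ⟨a', ha'⟩ : ∃ a', a' = a * (iv m q : ℤ) := ⟨_, rfl⟩
    have hiv := iv_dvd hm hq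
    have hga' : Int.gcd a' q = 1 := by
      rw [ha']
      apply Int.isCoprime_iff_gcd_eq_one.1
      apply IsCoprime.mul_left (Int.isCoprime_iff_gcd_eq_one.2 ha)
      obtain ⟨z, hz⟩ := hiv
      exact ⟨(m : ℤ), -z, by linarith⟩
    have hB : ∀ b : ℤ, Int.gcd b q = 1 → ‖∑ k ∈ Ioc K1 K2, ∑ l ∈ Ioc L1 L2, Ek b 1 q (k * l)‖ ≤ E := by
      intro b hb
      rw [hE]
      exact h1 X T q K1 K2 L1 L2 b hTau hsq hX hb hK hL
    have hu1 : 1 ≤ q / t := Nat.div_pos (Nat.le_of_dvd hq ht) (Nat.pos_of_dvd_of_pos ht hq)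
    have hφ : (0 : ℝ) < ((q / t).totient : ℝ) := by exact_mod_cast Nat.totient_pos.2 hu1
    have e1 : ∑ k ∈ Ioc K1 K2, ∑ l ∈ Ioc L1 L2, Ek a t q (m * (k * l)) =
        ∑ k ∈ Ioc K1 K2, ∑ l ∈ Ioc L1 L2, Ek a' 1 q (k * l) - (1 / ((q / t).totient : ℂ)) *
          ∑ b ∈ I2k_B a' t q, ∑ k ∈ Ioc K1 K2, ∑ l ∈ Ioc L1 L2, Ek (b : ℤ) 1 q (k * l) := by
      have e2 : ∀ k ∈ Ioc K1 K2, ∑ l ∈ Ioc L1 L2, Ek a t q (m * (k * l)) =
          ∑ l ∈ Ioc L1 L2, Ek a' 1 q (k * l) - (1 / ((q / t).totient : ℂ)) *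
            ∑ b ∈ I2k_B a' t q, ∑ l ∈ Ioc L1 L2, Ek (b : ℤ) 1 q (k * l) := by
        intro k _
        rw [sum_comm (s := I2k_B a' t q), mul_sum, ← sum_sub_distrib]
        refine sum_congr rfl fun l _ => ?_
        rw [I2k_m hq ht hm, ← ha', I2k_avg hsq ht]
      rw [sum_congr rfl e2, sum_sub_distrib, ← mul_sum, sum_comm (s := Ioc K1 K2) (t := I2k_B a' t q)]
    rw [e1]
    refine (norm_sub_le _ _).trans ?_
    have e3 : ‖(1 / ((q / t).totient : ℂ)) *
          ∑ b ∈ I2k_B a' t q, ∑ k ∈ Ioc K1 K2, ∑ l ∈ Ioc L1 L2, Ek (b : ℤ) 1 q (k * l)‖ ≤ E := by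
      rw [norm_mul, norm_div, norm_one, Complex.norm_natCast]
      have e4 : ‖∑ b ∈ I2k_B a' t q, ∑ k ∈ Ioc K1 K2, ∑ l ∈ Ioc L1 L2, Ek (b : ℤ) 1 q (k * l)‖ ≤
          ((q / t).totient : ℝ) * E := by
        refine (norm_sum_le _ _).trans ?_
        have e5 : ∀ b ∈ I2k_B a' t q, ‖∑ k ∈ Ioc K1 K2, ∑ l ∈ Ioc L1 L2, Ek ((b : ℕ) : ℤ) 1 q (k * l)‖ ≤ E := by
          intro b hb
          exact hB _ (I2k_B_gcd ht hga' hb)
        refine (sum_le_sum e5).trans ?_
        rw [sum_const, I2k_card hsq ht, nsmul_eq_mul]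
      calc 1 / ((q / t).totient : ℝ) * ‖∑ b ∈ I2k_B a' t q, ∑ k ∈ Ioc K1 K2, ∑ l ∈ Ioc L1 L2, Ek (b : ℤ) 1 q (k * l)‖
          ≤ 1 / ((q / t).totient : ℝ) * (((q / t).totient : ℝ) * E) :=
            mul_le_mul_of_nonneg_left e4 (by positivity)
        _ = E := by field_simp
    calc _ ≤ E + E := add_le_add (hB a' hga') e3
      _ = 2 * E := by ring
  · have e1 : ∑ k ∈ Ioc K1 K2, ∑ l ∈ Ioc L1 L2, Ek a t q (m * (k * l)) = 0 := by
      refine sum_eq_zero fun k _ => sum_eq_zero fun l _ => I2k_zero ht ha ?_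
      intro h
      exact hm (Nat.Coprime.coprime_mul_right h)
    rw [e1, norm_zero]
    positivity

end Pool.Agent.Lib.SLN
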