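import Pool.Agent.Lib.SL.AllE
import Pool.Agent.Lib.SLN.I2a
import Pool.Agent.Lib.SLN.I2b
import Pool.Agent.Lib.SLN.I2c
import Pool.Agent.Lib.SLN.I2k

/-!
MP_00e23e_nt, project NL, chapter A', Type I2 (helper54): the statements for boxes, without hypotheses.
-/

namespace Pool.Agent.Lib.SLN

theorem aI2a : I2aStmt := tI2a SL.tEcm (SL.tEkh (SL.tEkl TN.tWeil)) SL.tErm SL.aEzg

theorem aI2b : I2bStmt := tI2b SL.tEcm aI2a SL.aEzg

theorem aI2 : I2Stmt := tI2 aI2b tI2c

/-- two smooth variables in a box, all reduced classes modulo a squarefree q -/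
theorem aI2k : I2kStmt := tI2k aI2

end Pool.Agent.Lib.SLN
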