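import Pool.Agent.Lib.SL.DefC
import Pool.Agent.Lib.SLG.SpecL

/-!
MP_00e23e_nt, project NL (all classes, no lock), helper83: the interface of the pair bound. p = (h, ρ q, s1, s2), p' = (h', ρ q', s1', s2'),
A = q (s1/g) (s2/g), W(p, p') = (A/gcd(A, A')) (A'/gcd(A, A')).
-/

namespace Pool.Agent.Lib.SLN

open Finset Pool.Agent.Lib.EH3 Pool.Agent.Lib.TB Pool.Agent.Results.MP_00e23e_nt Pool.Agent.Lib.MI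

/-- A = q (s1/g) (s2/g) -/
def An (g q s1 s2 : ℕ) : ℕ := q * (s1 / g * (s2 / g))

/-- the product of the primes which divide exactly one of the squarefree numbers A, A' -/
def Wn (A A' : ℕ) : ℕ := A / Nat.gcd A A' * (A' / Nat.gcd A A')

/-- the sum of a pair over the points with gcd(n1, n2) ≤ t0 -/
noncomputable def PS (a : ℕ → ℕ → ℤ) (g N t0 : ℕ) (h : ℤ) (r s1 s2 : ℕ) (h' : ℤ) (r' s1' s2' : ℕ) : ℂ :=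
  ∑ n1 ∈ Ioc N (2 * N), ∑ n2 ∈ Ioc N (2 * N), if Nat.gcd n1 n2 ≤ t0 then
    SL.Fp a g h r s1 s2 n1 n2 * (starRingEnd ℂ) (SL.Fp a g h' r' s1' s2' n1 n2) else 0

/-- sizes and types of one tuple (ρ q, s1, s2): the primes of ρ q are ≤ P1, those of s1, s2 are > P1, all are ≤ y -/
def SuP (y : ℝ) (R S R0 P1 ρ q s1 s2 : ℕ) : Prop :=
  (R0 < ρ ∧ ρ ≤ 2 * R0) ∧ (R < ρ * q ∧ ρ * q ≤ 2 * R) ∧ (S < s1 ∧ s1 ≤ 2 * S) ∧ (S < s2 ∧ s2 ≤ 2 * S) ∧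
  (∀ p : ℕ, p.Prime → p ∣ q → p ≤ P1) ∧ (∀ p : ℕ, p.Prime → p ∣ s1 * s2 → P1 < p) ∧
  ∀ p : ℕ, p.Prime → p ∣ q * s1 * s2 → (p : ℝ) ≤ y

/-- PAIR BOUND, trivial part. From PhNStmt, SLG.LtrStmt. -/
def PbTStmt : Prop := ∀ (a : ℕ → ℕ → ℤ) (y : ℝ) (g R S N R0 t0 P1 ρ q q' s1 s2 s1' s2' : ℕ) (h h' : ℤ),
  1 ≤ R0 → 1 ≤ R → 1 ≤ N → SuP y R S R0 P1 ρ q s1 s2 → SuP y R S R0 P1 ρ q' s1' s2' → 8 * R ^ 2 * g ≤ R0 * N ^ 2 →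
  ‖PS a g N t0 h (ρ * q) s1 s2 h' (ρ * q') s1' s2'‖ ≤
    (32 * ((N : ℝ) ^ 2 * R0 / (g * (R : ℝ) ^ 2)) + t0) * (Nat.gcd q q' : ℝ)

/-- PAIR BOUND for far pairs (W0 < W(p, p')). From PhNStmt and the lattice theorem of helper28. The primes of ρ are ≤ y as well
(or only those of q s1 s2, if the lattice theorem needs no smoothness of ρ; here: all primes of ρ are ≤ y). -/
def PbFStmt : Prop := ∀ k : ℕ, ∃ C : ℝ, 1 ≤ C ∧ ∃ A : ℕ, ∀ (X T W W0 Z y Δ : ℝ) (a : ℕ → ℕ → ℤ)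
    (g R S N H R0 t0 P1 ρ q q' s1 s2 s1' s2' : ℕ) (h h' : ℤ), Tau X T →
  (1 ≤ g ∧ 2 ≤ R ∧ 1 ≤ S ∧ 1 ≤ N ∧ 1 ≤ H ∧ 1 ≤ R0 ∧ R0 ≤ R ∧ R ≤ N) → 1 ≤ t0 →
  (2 * (R : ℝ) * (S : ℝ) ^ 2 * N * H) ^ 12 ≤ X → 1 ≤ Z → 1 ≤ y → 0 < Δ → 1 ≤ Z * Δ ^ (2 ^ (k + 1)) →
  SuP y R S R0 P1 ρ q s1 s2 → SuP y R S R0 P1 ρ q' s1' s2' → (∀ p : ℕ, p.Prime → p ∣ ρ → (p : ℝ) ≤ y) →
  (h ≠ 0 ∧ |h| ≤ (H : ℤ)) → (h' ≠ 0 ∧ |h'| ≤ (H : ℤ)) → W0 ≤ (Wn (An g q s1 s2) (An g q' s1' s2') : ℝ) →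
  4 * W ^ 2 * (R : ℝ) ^ 2 * g ≤ R0 * (N : ℝ) ^ 2 → C * (W ^ 2 * Z ^ 2 * (g : ℝ) ^ 2 * (H : ℝ) ^ 4) ≤ W0 →
  C * (Z * y) ^ 2 ≤ W → 64 * (R : ℝ) ^ 2 * (S : ℝ) ^ 4 ≤ (R0 : ℝ) * (W / (C * (Z * y))) ^ k →
  ‖PS a g N t0 h (ρ * q) s1 s2 h' (ρ * q') s1' s2'‖ ≤
    C * T ^ A * ((N : ℝ) ^ 2 * R0 / (g * (R : ℝ) ^ 2) * (Δ + 1 / t0 + 1 / W) + t0) * (Nat.gcd q q' : ℝ)

end Pool.Agent.Lib.SLN
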